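import Pool.Agent.Run7.h775.OneSys.Strand

set_option linter.unusedSimpArgs false

open UpperHalfPlane MatrixGroups Pointwise

namespace Pool.Agent.Run7.h775.OneSys

noncomputable section

/-- The real quadratic polynomial with roots the fixed points of `g`. -/
def P (g : SL(2, ℝ)) (t : ℝ) : ℝ := g 1 0 * t ^ 2 + (g 1 1 - g 0 0) * t - g 0 1

theorem P_continuous (g : SL(2, ℝ)) : Continuous (P g) := by unfold P; fun_prop

theorem axis_of_roots {g : SL(2, ℝ)} {x y s : ℝ} (hxy : x ≠ y) (hx : P g x = 0) (hy : P g y = 0)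
    (hs : P g s ≠ 0) : axis g = geo x y ∧ IsHyp g := by
  unfold P at hx hy hs
  have h1 : (x - y) * (g 1 0 * (x + y) + (g 1 1 - g 0 0)) = 0 := by linear_combination hx - hy
  have h2 : g 1 1 - g 0 0 = -(g 1 0 * (x + y)) := by
    rcases mul_eq_zero.1 h1 with h | h
    · exact absurd (by linarith) hxy
    · linarith
  have h3 : g 0 1 = -(g 1 0 * (x * y)) := by
    rw [h2] at hx; linear_combination -hx
  have hc : g 1 0 ≠ 0 := by
    intro h0
    apply hs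
    rw [h2, h3, h0]; ring
  constructor
  · ext z
    change g 1 0 * (z.re ^ 2 + z.im ^ 2) + (g 1 1 - g 0 0) * z.re - g 0 1 = 0 ↔
      (z.re - x) * (z.re - y) + z.im ^ 2 = 0
    have : g 1 0 * (z.re ^ 2 + z.im ^ 2) + (g 1 1 - g 0 0) * z.re - g 0 1 =
        g 1 0 * ((z.re - x) * (z.re - y) + z.im ^ 2) := by rw [h2, h3]; ring
    rw [this]
    constructor
    · intro h
      rcases mul_eq_zero.1 h with h | h
      · exact absurd h hc
      · exact h
    · intro h; rw [h, mul_zero]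
  · have hd := det_eq g
    have h4 : (g 0 0 + g 1 1) ^ 2 - 4 = (g 1 0 * (x - y)) ^ 2 := by
      have : (g 0 0 + g 1 1) ^ 2 - 4 = (g 1 1 - g 0 0) ^ 2 + 4 * (g 0 0 * g 1 1 - 1) := by ring
      rw [this, show g 0 0 * g 1 1 - 1 = g 0 1 * g 1 0 by linarith, h2, h3]; ring
    have h5 : 0 < (g 1 0 * (x - y)) ^ 2 := by
      have := mul_ne_zero hc (sub_ne_zero.2 hxy)
      positivity
    unfold IsHyp
    by_contra h
    push Not at h
    have := sq_abs (g 0 0 + g 1 1)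
    nlinarith [abs_nonneg (g 0 0 + g 1 1)]

theorem root_of_sign {g : SL(2, ℝ)} {a b : ℝ} (hab : a < b) (h : P g a < 0 ∧ 0 < P g b ∨ 0 < P g a ∧ P g b < 0) :
    ∃ x, a < x ∧ x < b ∧ P g x = 0 := by
  rcases h with ⟨h1, h2⟩ | ⟨h1, h2⟩
  · obtain ⟨x, hx, hx0⟩ := intermediate_value_Icc hab.le (P_continuous g).continuousOn
      (show (0 : ℝ) ∈ Set.Icc (P g a) (P g b) from ⟨h1.le, h2.le⟩)
    refine ⟨x, lt_of_le_of_ne hx.1 ?_, lt_of_le_of_ne hx.2 ?_, hx0⟩
    · rintro rfl; linarith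
    · rintro rfl; linarith
  · obtain ⟨x, hx, hx0⟩ := intermediate_value_Icc' hab.le (P_continuous g).continuousOn
      (show (0 : ℝ) ∈ Set.Icc (P g b) (P g a) from ⟨h2.le, h1.le⟩)
    refine ⟨x, lt_of_le_of_ne hx.1 ?_, lt_of_le_of_ne hx.2 ?_, hx0⟩
    · rintro rfl; linarith
    · rintro rfl; linarith

/-- entries of `A ^ m`: with `M = φ^{2m}`, `A ^ m = diag(M, M⁻¹)`. -/
theorem Am_zpow_entries (m : ℤ) : (Am ^ m) 0 0 = (ph + 1) ^ m ∧ (Am ^ m) 0 1 = 0 ∧ (Am ^ m) 1 0 = 0 ∧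
    (Am ^ m) 1 1 = ((ph + 1) ^ m)⁻¹ := by
  have hne : ph + 1 ≠ 0 := by have := ph1; positivity
  have e : (2 - ph) = (ph + 1)⁻¹ :=
    eq_inv_of_mul_eq_one_left (by linear_combination -phsq)
  have h00 : Am 0 0 = ph + 1 := rfl
  have h01 : Am 0 1 = 0 := rfl
  have h10 : Am 1 0 = 0 := rfl
  have h11 : Am 1 1 = (ph + 1)⁻¹ := by rw [← e]; rfl
  induction m using Int.induction_on with
  | zero => simp
  | succ n ih =>
    obtain ⟨i1, i2, i3, i4⟩ := ih
    rw [zpow_add, zpow_one, mul00, mul01, mul10, mul11, i1, i2, i3, i4, h00, h01, h10, h11,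
      zpow_add₀ hne, zpow_one, mul_inv]
    simp
  | pred n ih =>
    obtain ⟨i1, i2, i3, i4⟩ := ih
    rw [zpow_sub, zpow_one, mul00, mul01, mul10, mul11, inv00, inv01, inv10, inv11, i1, i2, i3, i4, h00, h01,
      h10, h11, zpow_sub₀ hne, zpow_one]
    simp [div_eq_mul_inv, mul_comm]

theorem mu_eq : mu = (ph + 1) ^ 2 := by unfold mu; linear_combination -phsq

theorem mu_zpow (m : ℤ) : mu ^ m = ((ph + 1) ^ m) ^ 2 := by
  rw [mu_eq, ← zpow_natCast, ← zpow_mul, ← zpow_natCast, ← zpow_mul, mul_comm]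

theorem Mpos (m : ℤ) : 0 < (ph + 1) ^ m := zpow_pos (by linarith [ph1]) m

theorem M6 {m : ℤ} (hm : 2 ≤ m) : 6 < (ph + 1) ^ m := by
  have h1 : (1 : ℝ) ≤ ph + 1 := by linarith [ph1]
  have := zpow_le_zpow_right₀ h1 hm
  have h2 : (ph + 1) ^ (2 : ℤ) = mu := by rw [mu_eq]; norm_cast
  rw [h2] at this
  linarith [mu_gt]

/-- The geodesic of `A^{j} B` goes from the bottom slot `0` to the top slot `j`. -/
theorem mid_axis0 (j : ℤ) : MidS 0 j (axis (Am ^ j * Bm)) ∧ IsHyp (Am ^ j * Bm) := by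
  obtain ⟨a00, a01, a10, a11⟩ := Am_zpow_entries j
  set M := (ph + 1) ^ j with hM
  have hMp : 0 < M := Mpos j
  have b00 : Bm 0 0 = (3 * ph + 6) / 5 := rfl
  have b01 : Bm 0 1 = (4 * ph - 2) / 5 := rfl
  have b10 : Bm 1 0 = (4 * ph - 2) / 5 := rfl
  have b11 : Bm 1 1 = (9 - 3 * ph) / 5 := rfl
  have hP : ∀ t, P (Am ^ j * Bm) t = M⁻¹ * (t * (((4 * ph - 2) * t + (9 - 3 * ph)) / 5)) -
      M * (((3 * ph + 6) * t + (4 * ph - 2)) / 5) := by
    intro t
    unfold P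
    rw [mul00, mul01, mul10, mul11, a00, a01, a10, a11, b00, b01, b10, b11]
    ring
  have p1 := ph1
  have p2 := ph2
  have hi : 0 < M⁻¹ := inv_pos.2 hMp
  have s1 : 0 < P (Am ^ j * Bm) (bv 1) := by
    rw [hP, bv1]
    have e1 : -ph * (((4 * ph - 2) * (-ph) + (9 - 3 * ph)) / 5) = ph * (ph - 1) := by
      linear_combination (4 * ph / 5) * phsq
    have e2 : ((3 * ph + 6) * (-ph) + (4 * ph - 2)) / 5 = -(ph + 1) := by
      linear_combination (-3 / 5) * phsq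
    rw [e1, e2]
    have h1 : 0 < M⁻¹ * (ph * (ph - 1)) := by
      apply mul_pos hi; apply mul_pos <;> linarith
    have h2 : 0 < M * (ph + 1) := by apply mul_pos hMp; linarith
    linarith
  have s2 : P (Am ^ j * Bm) (bv 0) < 0 := by
    rw [hP, bv0]
    have e1 : (3 - 2 * ph) * (((4 * ph - 2) * (3 - 2 * ph) + (9 - 3 * ph)) / 5) = (3 - 2 * ph) * (ph - 1) := by
      linear_combination ((3 - 2 * ph) * (-8) / 5) * phsq
    have e2 : ((3 * ph + 6) * (3 - 2 * ph) + (4 * ph - 2)) / 5 = 2 - ph := by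
      linear_combination (-6 / 5) * phsq
    rw [e1, e2]
    have h1 : 0 < M⁻¹ * ((2 * ph - 3) * (ph - 1)) := by
      apply mul_pos hi; apply mul_pos <;> linarith [ph_gt]
    have h2 : 0 < M * (2 - ph) := by apply mul_pos hMp; linarith
    nlinarith
  have hMM : mu ^ j = M ^ 2 := mu_zpow j
  have hinv : M⁻¹ * M = 1 := inv_mul_cancel₀ hMp.ne'
  have s3 : P (Am ^ j * Bm) (tv j) < 0 := by
    rw [hP]
    unfold tv
    rw [hMM]
    have e1 : M⁻¹ * ((ph - 1) * M ^ 2 * (((4 * ph - 2) * ((ph - 1) * M ^ 2) + (9 - 3 * ph)) / 5)) -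
        M * (((3 * ph + 6) * ((ph - 1) * M ^ 2) + (4 * ph - 2)) / 5) =
        -(M ^ 3 * ((ph - 1) * ph)) - M * (2 - ph) := by
      have : M⁻¹ * ((ph - 1) * M ^ 2 * (((4 * ph - 2) * ((ph - 1) * M ^ 2) + (9 - 3 * ph)) / 5)) =
        (M⁻¹ * M) * ((ph - 1) * M * (((4 * ph - 2) * ((ph - 1) * M ^ 2) + (9 - 3 * ph)) / 5)) := by ring
      rw [this, hinv]
      linear_combination (M ^ 3 * (ph - 1) * (4 / 5) - M * (3 / 5)) * phsq
    rw [e1]
    have h1 : 0 < M ^ 3 * ((ph - 1) * ph) := by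
      apply mul_pos (by positivity); apply mul_pos <;> linarith
    have h2 : 0 < M * (2 - ph) := by apply mul_pos hMp; linarith
    linarith
  have s4 : 0 < P (Am ^ j * Bm) (tv (j + 1)) := by
    rw [hP]
    have e0 : tv (j + 1) = (2 * ph + 1) * M ^ 2 := by
      rw [add_comm, ← tv_shift, tv1, hMM]; ring
    rw [e0]
    have e1 : M⁻¹ * ((2 * ph + 1) * M ^ 2 * (((4 * ph - 2) * ((2 * ph + 1) * M ^ 2) + (9 - 3 * ph)) / 5)) -
        M * (((3 * ph + 6) * ((2 * ph + 1) * M ^ 2) + (4 * ph - 2)) / 5) =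
        M ^ 3 * ((2 * ph + 1) * ph) + M * (ph + 1) := by
      have : M⁻¹ * ((2 * ph + 1) * M ^ 2 * (((4 * ph - 2) * ((2 * ph + 1) * M ^ 2) + (9 - 3 * ph)) / 5)) =
        (M⁻¹ * M) * ((2 * ph + 1) * M * (((4 * ph - 2) * ((2 * ph + 1) * M ^ 2) + (9 - 3 * ph)) / 5)) := by ring
      rw [this, hinv]
      linear_combination (M ^ 3 * (2 * ph + 1) * (8 / 5) - M * (6 / 5)) * phsq
    rw [e1]
    have h1 : 0 < M ^ 3 * ((2 * ph + 1) * ph) := by
      apply mul_pos (by positivity); apply mul_pos <;> linarith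
    have h2 : 0 < M * (ph + 1) := by apply mul_pos hMp; linarith
    linarith
  obtain ⟨x, x1, x2, x3⟩ := root_of_sign (bv_anti (show (0 : ℤ) < 1 by norm_num)) (Or.inr ⟨s1, s2⟩)
  obtain ⟨y, y1, y2, y3⟩ := root_of_sign (tv_mono (show j < j + 1 by omega)) (Or.inl ⟨s3, s4⟩)
  have hxy : x ≠ y := by
    have := bv_neg 0; have := tv_pos j; intro h; linarith
  obtain ⟨h1, h2⟩ := axis_of_roots hxy x3 y3 s1.ne'
  exact ⟨⟨x, y, x1, x2, y1, y2, h1⟩, h2⟩

end

end Pool.Agent.Run7.h775.OneSys
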