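import Pool.Agent.Run7.h775.OneSys.Axis

set_option linter.unusedSimpArgs false

open UpperHalfPlane MatrixGroups Pointwise

namespace Pool.Agent.Run7.h775.OneSys

noncomputable section

theorem sgn1 {f M N N' : ℝ} (h1 : 8 / 5 < f) (h2 : f < 17 / 10) (hM : 6 < M) (hN : 6 < N) (hN' : 0 < N')
    (hN1 : N' < 1 / 6) :
    M⁻¹ * ((8 * f - 14) * N' + (9 - 3 * f) * N) - M * ((2 * f + 4) * N - (9 - 3 * f) * N') < 0 := by
  have hMi : 0 < M⁻¹ := inv_pos.2 (by linarith)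
  have hMi1 : M⁻¹ < 1 := inv_lt_one_of_one_lt₀ (by linarith)
  have u1 : (8 * f - 14) * N' + (9 - 3 * f) * N < 5 * N := by nlinarith
  have v1 : 5 * N < (2 * f + 4) * N - (9 - 3 * f) * N' := by nlinarith
  have a : M⁻¹ * ((8 * f - 14) * N' + (9 - 3 * f) * N) < M⁻¹ * (5 * N) := mul_lt_mul_of_pos_left u1 hMi
  have b : M⁻¹ * (5 * N) < 5 * N := by nlinarith
  have c : 5 * N < M * (5 * N) := by nlinarith
  have d : M * (5 * N) < M * ((2 * f + 4) * N - (9 - 3 * f) * N') :=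
    mul_lt_mul_of_pos_left v1 (by linarith)
  linarith

theorem sgn2 {f M N N' : ℝ} (h1 : 8 / 5 < f) (h2 : f < 17 / 10) (hM : 6 < M) (hN : 6 < N) (hN' : 0 < N')
    (hN1 : N' < 1 / 6) :
    0 < M⁻¹ * (-(12 * f + 9) * N + (22 * f + 14) * N') - M * (-(2 * f + 4) * N + (12 * f + 9) * N') := by
  have hMi : 0 < M⁻¹ := inv_pos.2 (by linarith)
  have hMi1 : M⁻¹ < 1 / 6 := by rw [inv_eq_one_div]; exact one_div_lt_one_div_of_lt (by norm_num) hM
  have u1 : -(30 * N) < -(12 * f + 9) * N + (22 * f + 14) * N' := by nlinarith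
  have v1 : -(2 * f + 4) * N + (12 * f + 9) * N' < -(5 * N) := by nlinarith
  have a : M⁻¹ * (-(30 * N)) < M⁻¹ * (-(12 * f + 9) * N + (22 * f + 14) * N') :=
    mul_lt_mul_of_pos_left u1 hMi
  have b : -(5 * N) < M⁻¹ * (-(30 * N)) := by nlinarith
  have c : M * (-(5 * N)) < -(5 * N) := by nlinarith
  have d : M * (-(2 * f + 4) * N + (12 * f + 9) * N') < M * (-(5 * N)) :=
    mul_lt_mul_of_pos_left v1 (by linarith)
  linarith

theorem sgn3 {f M N N' : ℝ} (h1 : 8 / 5 < f) (h2 : f < 17 / 10) (hM : 6 < M) (hN : 6 < N) (hN' : 0 < N')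
    (hN1 : N' < 1 / 6) :
    0 < M ^ 3 * ((14 - 8 * f) * N - (9 - 3 * f) * N') + M * (-(9 - 3 * f) * N + (2 * f + 4) * N') := by
  have u1 : 2 / 5 * N - 7 / 10 < (14 - 8 * f) * N - (9 - 3 * f) * N' := by nlinarith
  have v1 : -(21 / 5 * N) < -(9 - 3 * f) * N + (2 * f + 4) * N' := by nlinarith
  have hM2 : 36 < M ^ 2 := by nlinarith
  have a : 36 * (2 / 5 * N - 7 / 10) < M ^ 2 * ((14 - 8 * f) * N - (9 - 3 * f) * N') := by
    apply mul_lt_mul'' hM2 u1 (by norm_num) (by linarith)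
  have : 0 < M * (M ^ 2 * ((14 - 8 * f) * N - (9 - 3 * f) * N') + (-(9 - 3 * f) * N + (2 * f + 4) * N')) :=
    mul_pos (by linarith) (by linarith)
  linarith [this]

theorem sgn4 {f M N N' : ℝ} (h1 : 8 / 5 < f) (h2 : f < 17 / 10) (hM : 6 < M) (hN : 6 < N) (hN' : 0 < N')
    (hN1 : N' < 1 / 6) :
    M ^ 3 * (-(22 * f + 14) * N + (12 * f + 9) * N') + M * ((12 * f + 9) * N - (2 * f + 4) * N') < 0 := by
  have u1 : 40 * N < (22 * f + 14) * N - (12 * f + 9) * N' := by nlinarith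
  have v1 : (12 * f + 9) * N - (2 * f + 4) * N' < 30 * N := by nlinarith
  have hM2 : 36 < M ^ 2 := by nlinarith
  have a : 36 * (40 * N) < M ^ 2 * ((22 * f + 14) * N - (12 * f + 9) * N') := by
    apply mul_lt_mul'' hM2 u1 (by norm_num) (by linarith)
  have : 0 < M * (M ^ 2 * ((22 * f + 14) * N - (12 * f + 9) * N') - ((12 * f + 9) * N - (2 * f + 4) * N')) :=
    mul_pos (by linarith) (by linarith)
  linarith [this]

/-- The geodesic of `A^m B A^{-n} B⁻¹` goes from the top slot `0` to the top slot `m`. -/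
theorem top_axis0 {m n : ℤ} (hm : 2 ≤ m) (hn : 2 ≤ n) :
    TopS 0 m (axis (Am ^ m * Bm * Am ^ (-n) * Bm⁻¹)) ∧ IsHyp (Am ^ m * Bm * Am ^ (-n) * Bm⁻¹) := by
  obtain ⟨a00, a01, a10, a11⟩ := Am_zpow_entries m
  obtain ⟨c00, c01, c10, c11⟩ := Am_zpow_entries (-n)
  have hNz : (ph + 1) ^ n ≠ 0 := (Mpos n).ne'
  rw [zpow_neg (ph + 1) n] at c00 c11
  rw [inv_inv] at c11
  have hM6 := M6 hm
  have hN6 := M6 hn
  set M := (ph + 1) ^ m with hM
  set N := (ph + 1) ^ n with hN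
  have hMp : 0 < M := Mpos m
  have hNp : 0 < N⁻¹ := inv_pos.2 (by linarith)
  have hN1 : N⁻¹ < 1 / 6 := by rw [inv_eq_one_div]; exact one_div_lt_one_div_of_lt (by norm_num) hN6
  set N' := N⁻¹ with hN'
  have b00 : Bm 0 0 = (3 * ph + 6) / 5 := rfl
  have b01 : Bm 0 1 = (4 * ph - 2) / 5 := rfl
  have b10 : Bm 1 0 = (4 * ph - 2) / 5 := rfl
  have b11 : Bm 1 1 = (9 - 3 * ph) / 5 := rfl
  set g := Am ^ m * Bm * Am ^ (-n) * Bm⁻¹ with hg
  have g00 : g 0 0 = M * ((9 * N' - 4 * N) / 5) := by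
    rw [hg]
    simp only [mul00, mul01, mul10, mul11, inv00, inv01, inv10, inv11, a00, a01, a10, a11, b00, b01, b10, b11,
      c00, c01, c10, c11]
    linear_combination (M * (-9 / 25 * N' - 16 / 25 * N)) * phsq
  have g01 : g 0 1 = M * (6 * ph * (N - N') / 5) := by
    rw [hg]
    simp only [mul00, mul01, mul10, mul11, inv00, inv01, inv10, inv11, a00, a01, a10, a11, b00, b01, b10, b11,
      c00, c01, c10, c11]
    linear_combination (M * (12 / 25 * (N - N'))) * phsq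
  have g10 : g 1 0 = M⁻¹ * (-(6 * (ph - 1) * (N - N')) / 5) := by
    rw [hg]
    simp only [mul00, mul01, mul10, mul11, inv00, inv01, inv10, inv11, a00, a01, a10, a11, b00, b01, b10, b11,
      c00, c01, c10, c11]
    linear_combination (M⁻¹ * (12 / 25 * (N - N'))) * phsq
  have g11 : g 1 1 = M⁻¹ * ((9 * N - 4 * N') / 5) := by
    rw [hg]
    simp only [mul00, mul01, mul10, mul11, inv00, inv01, inv10, inv11, a00, a01, a10, a11, b00, b01, b10, b11,
      c00, c01, c10, c11]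
    linear_combination (M⁻¹ * (-16 / 25 * N' - 9 / 25 * N)) * phsq
  have hP : ∀ t, P g t = (M⁻¹ * (t * (-(6 * (ph - 1) * (N - N')) * t + (9 * N - 4 * N'))) -
      M * ((9 * N' - 4 * N) * t + 6 * ph * (N - N'))) / 5 := by
    intro t; unfold P; rw [g00, g01, g10, g11]; ring
  have p1 := ph_gt
  have p2 := ph_lt
  have hinv : M⁻¹ * M = 1 := inv_mul_cancel₀ hMp.ne'
  have hMM : mu ^ m = M ^ 2 := mu_zpow m
  have s1 : P g (tv 0) < 0 := by
    rw [hP, tv0]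
    have h := sgn1 p1 p2 hM6 hN6 hNp hN1
    have e1 : (ph - 1) * (-(6 * (ph - 1) * (N - N')) * (ph - 1) + (9 * N - 4 * N')) =
        (8 * ph - 14) * N' + (9 - 3 * ph) * N := by
      linear_combination (6 * (2 - ph) * (N - N')) * phsq
    have e2 : (9 * N' - 4 * N) * (ph - 1) + 6 * ph * (N - N') = (2 * ph + 4) * N - (9 - 3 * ph) * N' := by
      ring
    rw [e1, e2]
    linarith
  have s2 : 0 < P g (tv 1) := by
    rw [hP, tv1]
    have h := sgn2 p1 p2 hM6 hN6 hNp hN1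
    have e1 : (2 * ph + 1) * (-(6 * (ph - 1) * (N - N')) * (2 * ph + 1) + (9 * N - 4 * N')) =
        -(12 * ph + 9) * N + (22 * ph + 14) * N' := by
      linear_combination (-(24 * ph + 24) * (N - N')) * phsq
    have e2 : (9 * N' - 4 * N) * (2 * ph + 1) + 6 * ph * (N - N') = -(2 * ph + 4) * N + (12 * ph + 9) * N' := by
      ring
    rw [e1, e2]
    linarith
  have s3 : 0 < P g (tv m) := by
    rw [hP]
    unfold tv
    rw [hMM]
    have h := sgn3 p1 p2 hM6 hN6 hNp hN1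
    have e1 : M⁻¹ * ((ph - 1) * M ^ 2 * (-(6 * (ph - 1) * (N - N')) * ((ph - 1) * M ^ 2) + (9 * N - 4 * N'))) -
        M * ((9 * N' - 4 * N) * ((ph - 1) * M ^ 2) + 6 * ph * (N - N')) =
        M ^ 3 * ((14 - 8 * ph) * N - (9 - 3 * ph) * N') + M * (-(9 - 3 * ph) * N + (2 * ph + 4) * N') := by
      have : M⁻¹ * ((ph - 1) * M ^ 2 * (-(6 * (ph - 1) * (N - N')) * ((ph - 1) * M ^ 2) + (9 * N - 4 * N'))) =
        (M⁻¹ * M) * ((ph - 1) * M * (-(6 * (ph - 1) * (N - N')) * ((ph - 1) * M ^ 2) + (9 * N - 4 * N'))) := by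
          ring
      rw [this, hinv]
      linear_combination (M ^ 3 * (6 * (2 - ph) * (N - N'))) * phsq
    rw [e1]
    linarith
  have s4 : P g (tv (m + 1)) < 0 := by
    rw [hP]
    have e0 : tv (m + 1) = (2 * ph + 1) * M ^ 2 := by
      rw [add_comm, ← tv_shift, tv1, hMM]; ring
    rw [e0]
    have h := sgn4 p1 p2 hM6 hN6 hNp hN1
    have e1 : M⁻¹ * ((2 * ph + 1) * M ^ 2 * (-(6 * (ph - 1) * (N - N')) * ((2 * ph + 1) * M ^ 2) + (9 * N - 4 * N'))) -
        M * ((9 * N' - 4 * N) * ((2 * ph + 1) * M ^ 2) + 6 * ph * (N - N')) =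
        M ^ 3 * (-(22 * ph + 14) * N + (12 * ph + 9) * N') + M * ((12 * ph + 9) * N - (2 * ph + 4) * N') := by
      have : M⁻¹ * ((2 * ph + 1) * M ^ 2 * (-(6 * (ph - 1) * (N - N')) * ((2 * ph + 1) * M ^ 2) + (9 * N - 4 * N'))) =
        (M⁻¹ * M) * ((2 * ph + 1) * M * (-(6 * (ph - 1) * (N - N')) * ((2 * ph + 1) * M ^ 2) + (9 * N - 4 * N'))) := by
          ring
      rw [this, hinv]
      linear_combination (M ^ 3 * (-(24 * ph + 24) * (N - N'))) * phsq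
    rw [e1]
    linarith
  obtain ⟨x, x1, x2, x3⟩ := root_of_sign (tv_mono (show (0 : ℤ) < 1 by norm_num)) (Or.inl ⟨s1, s2⟩)
  obtain ⟨y, y1, y2, y3⟩ := root_of_sign (tv_mono (show m < m + 1 by omega)) (Or.inr ⟨s3, s4⟩)
  have hxy : x < y := by
    have := tv_mono' (show (1 : ℤ) ≤ m by omega); linarith
  obtain ⟨h1, h2⟩ := axis_of_roots hxy.ne x3 y3 s1.ne
  exact ⟨⟨x, y, x1, by simpa using x2, y1, y2, h1⟩, h2⟩

end

end Pool.Agent.Run7.h775.OneSys
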