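import Pool.Agent.Run7.h775.OneSys.Defs

set_option linter.unusedSimpArgs false

open UpperHalfPlane MatrixGroups Pointwise

namespace Pool.Agent.Run7.h775.OneSys

noncomputable section

theorem nsq_smul_eq (g : SL(2, ℝ)) (z : ℍ) :
    ((g • z).re ^ 2 + (g • z).im ^ 2) * ((g 1 0 * z.re + g 1 1) ^ 2 + (g 1 0 * z.im) ^ 2) =
      (g 0 0 * z.re + g 0 1) ^ 2 + (g 0 0 * z.im) ^ 2 := by
  have hp := den_pos g z
  have h1 := re_smul_eq g z
  have h2 := im_smul_eq g z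
  have hd := det_eq g
  set D := (g 1 0 * z.re + g 1 1) ^ 2 + (g 1 0 * z.im) ^ 2 with hD
  have : (((g • z).re ^ 2 + (g • z).im ^ 2) * D - ((g 0 0 * z.re + g 0 1) ^ 2 + (g 0 0 * z.im) ^ 2)) * D
      = 0 := by
    have e1 : (((g • z).re ^ 2 + (g • z).im ^ 2) * D) * D = ((g • z).re * D) ^ 2 + ((g • z).im * D) ^ 2 := by
      ring
    rw [sub_mul, e1, h1, h2, hD]
    linear_combination (-(z.im ^ 2) * (g 0 0 * g 1 1 - g 0 1 * g 1 0 + 1)) * hd
  rcases mul_eq_zero.1 this with h | h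
  · linarith
  · exact absurd h hp.ne'

theorem mul00 (g h : SL(2, ℝ)) : (g * h) 0 0 = g 0 0 * h 0 0 + g 0 1 * h 1 0 := by
  rw [Matrix.SpecialLinearGroup.coe_mul, Matrix.mul_apply, Fin.sum_univ_two]
theorem mul01 (g h : SL(2, ℝ)) : (g * h) 0 1 = g 0 0 * h 0 1 + g 0 1 * h 1 1 := by
  rw [Matrix.SpecialLinearGroup.coe_mul, Matrix.mul_apply, Fin.sum_univ_two]
theorem mul10 (g h : SL(2, ℝ)) : (g * h) 1 0 = g 1 0 * h 0 0 + g 1 1 * h 1 0 := by
  rw [Matrix.SpecialLinearGroup.coe_mul, Matrix.mul_apply, Fin.sum_univ_two]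
theorem mul11 (g h : SL(2, ℝ)) : (g * h) 1 1 = g 1 0 * h 0 1 + g 1 1 * h 1 1 := by
  rw [Matrix.SpecialLinearGroup.coe_mul, Matrix.mul_apply, Fin.sum_univ_two]
theorem inv00 (g : SL(2, ℝ)) : g⁻¹ 0 0 = g 1 1 := by
  rw [Matrix.SpecialLinearGroup.coe_inv, Matrix.adjugate_fin_two]; rfl
theorem inv01 (g : SL(2, ℝ)) : g⁻¹ 0 1 = -g 0 1 := by
  rw [Matrix.SpecialLinearGroup.coe_inv, Matrix.adjugate_fin_two]; rfl
theorem inv10 (g : SL(2, ℝ)) : g⁻¹ 1 0 = -g 1 0 := by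
  rw [Matrix.SpecialLinearGroup.coe_inv, Matrix.adjugate_fin_two]; rfl
theorem inv11 (g : SL(2, ℝ)) : g⁻¹ 1 1 = g 0 0 := by
  rw [Matrix.SpecialLinearGroup.coe_inv, Matrix.adjugate_fin_two]; rfl

/-- The form whose zero set is the axis. -/
def F (g : SL(2, ℝ)) (z : ℍ) : ℝ :=
  g 1 0 * (z.re ^ 2 + z.im ^ 2) + (g 1 1 - g 0 0) * z.re - g 0 1

theorem mem_axis {g : SL(2, ℝ)} {z : ℍ} : z ∈ axis g ↔ F g z = 0 := Iff.rfl

theorem F_conj (k g : SL(2, ℝ)) (z : ℍ) :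
    F (k * g * k⁻¹) (k • z) * ((k 1 0 * z.re + k 1 1) ^ 2 + (k 1 0 * z.im) ^ 2) = F g z := by
  have h0 := nsq_smul_eq k z
  have h1 := re_smul_eq k z
  have hd := det_eq k
  have e00 : (k * g * k⁻¹) 0 0 = (k 0 0 * g 0 0 + k 0 1 * g 1 0) * k 1 1 -
      (k 0 0 * g 0 1 + k 0 1 * g 1 1) * k 1 0 := by
    simp only [mul00, mul01, mul10, mul11, inv00, inv01, inv10, inv11]; ring
  have e01 : (k * g * k⁻¹) 0 1 = -(k 0 0 * g 0 0 + k 0 1 * g 1 0) * k 0 1 +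
      (k 0 0 * g 0 1 + k 0 1 * g 1 1) * k 0 0 := by
    simp only [mul00, mul01, mul10, mul11, inv00, inv01, inv10, inv11]; ring
  have e10 : (k * g * k⁻¹) 1 0 = (k 1 0 * g 0 0 + k 1 1 * g 1 0) * k 1 1 -
      (k 1 0 * g 0 1 + k 1 1 * g 1 1) * k 1 0 := by
    simp only [mul00, mul01, mul10, mul11, inv00, inv01, inv10, inv11]; ring
  have e11 : (k * g * k⁻¹) 1 1 = -(k 1 0 * g 0 0 + k 1 1 * g 1 0) * k 0 1 +
      (k 1 0 * g 0 1 + k 1 1 * g 1 1) * k 0 0 := by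
    simp only [mul00, mul01, mul10, mul11, inv00, inv01, inv10, inv11]; ring
  set D := (k 1 0 * z.re + k 1 1) ^ 2 + (k 1 0 * z.im) ^ 2 with hD
  have : F (k * g * k⁻¹) (k • z) * D =
      (k * g * k⁻¹) 1 0 * (((k • z).re ^ 2 + (k • z).im ^ 2) * D)
        + ((k * g * k⁻¹) 1 1 - (k * g * k⁻¹) 0 0) * ((k • z).re * D) - (k * g * k⁻¹) 0 1 * D := by
    unfold F; ring
  rw [this, h0, h1, e00, e01, e10, e11, hD]
  have : F g z = F g z * (k 0 0 * k 1 1 - k 0 1 * k 1 0) ^ 2 := by rw [hd]; ring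
  rw [this]
  unfold F
  ring

theorem smul_axis (k g : SL(2, ℝ)) : k • axis g = axis (k * g * k⁻¹) := by
  have key : ∀ (k g : SL(2, ℝ)) (z : ℍ), z ∈ axis g → k • z ∈ axis (k * g * k⁻¹) := by
    intro k g z hz
    rw [mem_axis] at hz ⊢
    have := F_conj k g z
    rw [hz] at this
    rcases mul_eq_zero.1 this with h | h
    · exact h
    · exact absurd h (den_pos k z).ne'
  ext z
  rw [Set.mem_smul_set_iff_inv_smul_mem]
  constructor
  · intro h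
    have := key k g _ h
    rwa [smul_inv_smul] at this
  · intro h
    have := key k⁻¹ _ _ h
    simpa [mul_assoc] using this

theorem isHyp_conj {k g : SL(2, ℝ)} : IsHyp (k * g * k⁻¹) ↔ IsHyp g := by
  have hd := det_eq k
  have : (k * g * k⁻¹) 0 0 + (k * g * k⁻¹) 1 1 = g 0 0 + g 1 1 := by
    have e : g 0 0 + g 1 1 = (g 0 0 + g 1 1) * (k 0 0 * k 1 1 - k 0 1 * k 1 0) := by rw [hd]; ring
    rw [e]
    simp only [mul00, mul01, mul10, mul11, inv00, inv01, inv10, inv11]; ring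
  unfold IsHyp
  rw [this]

/-- geodesic with real endpoints `x, y` -/
def geo (x y : ℝ) : Set ℍ := {z | (z.re - x) * (z.re - y) + z.im ^ 2 = 0}

theorem geo_comm (x y : ℝ) : geo x y = geo y x := by
  ext z; simp [geo, mul_comm]

/-- The semidisk form. -/
def q (x y : ℝ) (z : ℍ) : ℝ := (z.re - x) * (z.re - y) + z.im ^ 2

theorem mem_geo {x y : ℝ} {z : ℍ} : z ∈ geo x y ↔ q x y z = 0 := Iff.rfl

theorem q_between {x y : ℝ} {z : ℍ} (hxy : x < y) (h : q x y z ≤ 0) : x < z.re ∧ z.re < y := by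
  unfold q at h
  have hz := z.im_pos
  have : (z.re - x) * (z.re - y) < 0 := by nlinarith
  constructor
  · by_contra h1
    push Not at h1
    nlinarith
  · by_contra h1
    push Not at h1
    nlinarith

theorem q_nested {x y u v : ℝ} {z : ℍ} (h1 : x ≤ u) (huv : u < v) (h2 : v ≤ y) (h : q u v z < 0) :
    q x y z < 0 := by
  obtain ⟨ha, hb⟩ := q_between huv h.le
  unfold q at *
  nlinarith [mul_nonneg (sub_nonneg.2 h1) (sub_nonneg.2 hb.le), mul_nonneg (sub_nonneg.2 h2) (sub_nonneg.2 ha.le), mul_nonneg (sub_nonneg.2 h1) (sub_nonneg.2 h2)]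

theorem q_nested' {x y u v : ℝ} {z : ℍ} (h1 : x < u) (huv : u < v) (h2 : v < y) (h : q u v z ≤ 0) :
    q x y z < 0 := by
  obtain ⟨ha, hb⟩ := q_between huv h
  unfold q at *
  nlinarith [mul_pos (sub_pos.2 h1) (sub_pos.2 hb), mul_pos (sub_pos.2 h2) (sub_pos.2 ha), mul_pos (sub_pos.2 h1) (sub_pos.2 h2)]

end

end Pool.Agent.Run7.h775.OneSys
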