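import Pool.Agent.Run7.h775.OneSys.Fam

set_option linter.unusedSimpArgs false
set_option maxHeartbeats 1000000

open UpperHalfPlane MatrixGroups Pointwise

namespace Pool.Agent.Run7.h775.OneSys

noncomputable section

theorem axis_a : axis (Am ^ (48 : ℤ)) = La ∧ IsHyp (Am ^ (48 : ℤ)) := by
  obtain ⟨a00, a01, a10, a11⟩ := Am_zpow_entries 48
  have h6 := M6 (m := 48) (by norm_num)
  set M := (ph + 1) ^ (48 : ℤ) with hM
  have hi : 0 < M⁻¹ := inv_pos.2 (by linarith)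
  have hi1 : M⁻¹ < 1 := inv_lt_one_of_one_lt₀ (by linarith)
  constructor
  · ext z
    change (Am ^ (48 : ℤ)) 1 0 * (z.re ^ 2 + z.im ^ 2) + ((Am ^ (48 : ℤ)) 1 1 - (Am ^ (48 : ℤ)) 0 0) * z.re -
      (Am ^ (48 : ℤ)) 0 1 = 0 ↔ z.re = 0
    rw [a00, a01, a10, a11, zero_mul, zero_add, sub_zero]
    constructor
    · intro h
      rcases mul_eq_zero.1 h with h | h
      · linarith
      · exact h
    · intro h; rw [h, mul_zero]
  · unfold IsHyp
    rw [a00, a11, abs_of_pos (by linarith)]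
    linarith

theorem smul_La (n : ℤ) : Am ^ n • La = La := by
  ext z
  rw [Set.mem_smul_set_iff_inv_smul_mem, ← zpow_neg]
  change (Am ^ (-n) • z).re = 0 ↔ z.re = 0
  rw [(Am_zpow (-n) z).1]
  have := (zpow_pos mu_pos (-n)).ne'
  constructor
  · intro h; exact (mul_eq_zero.1 h).resolve_left this
  · intro h; rw [h, mul_zero]

/-- strands of the core curve -/
def StrA : Set (Set ℍ) := {La}

theorem StrA_fam : Fam StrA where
  good := by
    constructor
    · rintro L rfl k z hz hX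
      exfalso
      have h1 : z.re = 0 := hz
      have := (X_true_re hX).1
      have := tv_pos k
      linarith
    · rintro L rfl k z hz hX
      exfalso
      have h1 : z.re = 0 := hz
      have := (X_false_re hX).2
      have := bv_neg k
      linarith
  acl := by rintro L rfl n; exact smul_La _
  sep := by rintro M rfl N rfl z _ _; rfl

/-- The core curve. -/
def core : Set (Surf GR) := proj GR '' La

theorem core_isCurve (hex : Exh) : IsCurve GR core := by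
  have h : Am ^ (48 : ℤ) ∈ GR := by simpa using a_mem 1
  refine ⟨Am ^ (48 : ℤ), h, axis_a.2, by rw [axis_a.1]; rfl, ?_⟩
  rw [axis_a.1]
  exact StrA_fam.simple hex rfl

/-- A geodesic meeting the core once. -/
def Ld : Set ℍ := axis (rep (ta 0))

theorem Ld_mid : MidS (sa' 0) (sa 0) Ld := (mid_axis _ _).1
theorem Ld_hyp : IsHyp (rep (ta 0)) := (mid_axis _ _).2

theorem ta_Ld : rep (ta 0) • Ld = Ld := by
  unfold Ld; rw [smul_axis, mul_inv_cancel_right]
theorem ta_Ld' : (rep (ta 0))⁻¹ • Ld = Ld := by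
  unfold Ld; rw [smul_axis]; congr 1; group

def StrD : Set (Set ℍ) := {L | ∃ n : ℤ, L = Am ^ (48 * n) • Ld}

theorem StrD_mid (n : ℤ) : MidS (sa' 0 + 48 * n) (sa 0 + 48 * n) (Am ^ (48 * n) • Ld) := MidS_A _ Ld_mid

theorem StrD_fam : Fam StrD where
  good := by
    constructor
    · rintro L ⟨n, rfl⟩ k z hz hX
      rcases MidS_X (StrD_mid n) hz hX with ⟨h, _⟩ | ⟨_, rfl⟩
      · exact absurd h (by decide)
      · exact ⟨_, T_shift_mem (ta_mem 0) n, n, by rw [rep_T_shift_inv]; exact congrArg _ ta_Ld'⟩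
    · rintro L ⟨n, rfl⟩ k z hz hX
      rcases MidS_X (StrD_mid n) hz hX with ⟨_, rfl⟩ | ⟨h, _⟩
      · exact ⟨_, T_shift_mem (ta_mem 0) n, n, by rw [rep_T_shift]; exact congrArg _ ta_Ld⟩
      · exact absurd h (by decide)
  acl := by
    rintro L ⟨m, rfl⟩ n
    exact ⟨n + m, by rw [smul_smul, ← zpow_add]; congr 2; ring⟩
  sep := by
    have key : ∀ n m : ℤ, n < m → ∀ z, z ∈ Am ^ (48 * n) • Ld → z ∈ Am ^ (48 * m) • Ld → False := by
      intro n m hnm z h1 h2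
      obtain ⟨x, y, a1, a2, a3, a4, e⟩ := StrD_mid n
      obtain ⟨u, v, b1, b2, b3, b4, e'⟩ := StrD_mid m
      rw [e] at h1
      rw [e'] at h2
      have c1 := bv_lt_of a1 b2 (show sa' 0 + 48 * n < sa' 0 + 48 * m by omega)
      have c2 := tv_lt_of a4 b3 (show sa 0 + 48 * n < sa 0 + 48 * m by omega)
      have := bv_neg (sa' 0 + 48 * n)
      have := tv_pos (sa 0 + 48 * n)
      have := (geo_meet (show u < v by linarith) (show x < y by linarith) h2 h1 c1).2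
      linarith
    rintro M ⟨n, rfl⟩ N ⟨m, rfl⟩ z h1 h2
    rcases lt_trichotomy n m with h | h | h
    · exact (key n m h z h1 h2).elim
    · rw [h]
    · exact (key m n h z h2 h1).elim

def dual : Set (Surf GR) := proj GR '' Ld

theorem dual_isCurve (hex : Exh) : IsCurve GR dual :=
  ⟨rep (ta 0), rep_mem_GR (ta_mem 0), Ld_hyp, rfl, StrD_fam.simple hex ⟨0, by simp [Ld]⟩⟩

theorem La_geo_unique {x y : ℝ} {z w : ℍ} (hz : z ∈ La) (hw : w ∈ La) (h1 : z ∈ geo x y) (h2 : w ∈ geo x y) :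
    z = w := by
  have e1 := geo_re h1
  have e2 := geo_re h2
  have hz' : z.re = 0 := hz
  have hw' : w.re = 0 := hw
  rw [hz'] at e1
  rw [hw'] at e2
  refine UpperHalfPlane.ext_re_im (by rw [hz', hw']) ?_
  have := z.im_pos
  have := w.im_pos
  nlinarith

theorem core_dual (hex : Exh) : (core ∩ dual).encard = 1 := by
  apply le_antisymm
  · refine Fam.encard_le hex StrA_fam StrD_fam rfl ⟨0, by simp [Ld]⟩ ?_
    rintro z hz w hw M1 rfl M2 ⟨n1, rfl⟩ N1 rfl N2 ⟨n2, rfl⟩ a b c d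
    refine ⟨n2 - n1, ?_⟩
    have a' : Am ^ (48 * (n2 - n1)) • z ∈ La := by
      rw [← smul_La (48 * (n2 - n1))]; exact Set.smul_mem_smul_set a
    have b' : Am ^ (48 * (n2 - n1)) • z ∈ Am ^ (48 * n2) • Ld := by
      have : Am ^ (48 * n2) • Ld = Am ^ (48 * (n2 - n1)) • (Am ^ (48 * n1) • Ld) := by
        rw [smul_smul, ← zpow_add]; congr 2; ring
      rw [this]; exact Set.smul_mem_smul_set b
    obtain ⟨x, y, _, _, _, _, e⟩ := StrD_mid n2
    rw [e] at b' d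
    exact La_geo_unique a' c b' d
  · rw [Set.one_le_encard_iff_nonempty]
    obtain ⟨x, y, a1, a2, a3, a4, e⟩ := Ld_mid
    have hx : x < 0 := by have := bv_neg (sa' 0); linarith
    have hy : 0 < y := by have := tv_pos (sa 0); linarith
    have hp : 0 < -(x * y) := by nlinarith
    let z : ℍ := ⟨⟨0, Real.sqrt (-(x * y))⟩, Real.sqrt_pos.2 hp⟩
    refine ⟨proj GR z, ⟨z, rfl, rfl⟩, ⟨z, ?_, rfl⟩⟩
    rw [e]
    change ((0 : ℝ) - x) * (0 - y) + Real.sqrt (-(x * y)) ^ 2 = 0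
    rw [Real.sq_sqrt hp.le]; ring

theorem core_cur (hex : Exh) (i : Fin 24) : core ∩ cur i = ∅ := by
  rw [Set.eq_empty_iff_forall_notMem]
  intro s hs
  obtain ⟨z, hz, M1, rfl, M2, hM2, a, b, _⟩ := Fam.pair hex StrA_fam (Str_fam i) rfl (Lt_mem i) hs
  have h1 : z.re = 0 := a
  rcases Str_cases hM2 b with ⟨n, _, h⟩ | ⟨n, _, h⟩ <;> linarith

theorem cur_partner (hex : Exh) (i : Fin 24) : ∃ j, i ≠ j ∧ (cur i ∩ cur j).encard = 1 := by
  obtain ⟨j, e, n, hij, h⟩ := I_exists i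
  refine ⟨j, hij, le_antisymm (cur_inter hex hij) ?_⟩
  rw [Set.one_le_encard_iff_nonempty]
  cases e
  · have h' : inter (sa' i) (sb' i) (sa' j + 48 * n) (sb' j + 48 * n) := h
    obtain ⟨z, h1, h2⟩ := BotS_cross (Lb_bot i) (Str_bot j n) h'
    refine ⟨proj GR z, ?_, ?_⟩
    · rw [← proj_Str (Lb_mem i)]; exact ⟨z, h1, rfl⟩
    · rw [← proj_Str (i := j) ⟨n, Or.inr rfl⟩]; exact ⟨z, h2, rfl⟩
  · have h' : inter (sa i) (sb i) (sa j + 48 * n) (sb j + 48 * n) := h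
    obtain ⟨z, h1, h2⟩ := TopS_cross (Lt_top i) (Str_top j n) h'
    refine ⟨proj GR z, ?_, ?_⟩
    · rw [← proj_Str (Lt_mem i)]; exact ⟨z, h1, rfl⟩
    · rw [← proj_Str (i := j) ⟨n, Or.inl rfl⟩]; exact ⟨z, h2, rfl⟩

/-- **The blocking property.**  Every closed geodesic meeting the core meets some `cur i` at least twice. -/
theorem blocked {h : SL(2, ℝ)} (hh : h ∈ GR) (hyp : IsHyp h) (hmeet : (proj GR '' axis h ∩ core).Nonempty)
    (hne : proj GR '' axis h ≠ core) : ∃ i, ¬ (proj GR '' axis h ∩ cur i).encard ≤ 1 := by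
  obtain ⟨s, ⟨x, hx, e1⟩, ⟨y, hy, e2⟩⟩ := hmeet
  obtain ⟨k, hk, hkx⟩ := proj_eq_iff.1 (e2.trans e1.symm)
  -- k • x = y
  have him : proj GR '' axis (k * h * k⁻¹) = proj GR '' axis h := by
    rw [← smul_axis, proj_image_smul hk]
  have hmem : k * h * k⁻¹ ∈ GR := GR.mul_mem (GR.mul_mem hk hh) (GR.inv_mem hk)
  obtain ⟨w, hw, hwe⟩ := hmem
  have hyp' : IsHyp (rep w) := by rw [hwe]; exact isHyp_conj.2 hyp
  have hyw : y ∈ axis (rep w) := by rw [hwe, ← smul_axis, ← hkx]; exact Set.smul_mem_smul_set hx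
  have hne' : axis (rep w) ≠ La := by
    intro h0
    apply hne
    rw [← him, ← hwe, h0]; rfl
  obtain ⟨p, r, hmid⟩ := mid_of_cross hyp' hyw hy hne'
  obtain ⟨i, n, n', c1, c2, c3, c4⟩ := cover r p
  obtain ⟨z1, a1, a2, a3⟩ := Mid_Top hmid (Str_top i n) c1 c2
  obtain ⟨z2, b1, b2, b3⟩ := Mid_Bot hmid (Str_bot i n') c3 c4
  refine ⟨i, fun hle => ?_⟩
  rw [Set.encard_le_one_iff] at hle
  have m1 : proj GR z1 ∈ proj GR '' axis h ∩ cur i := by
    refine ⟨?_, ?_⟩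
    · rw [← him, ← hwe]; exact ⟨z1, a1, rfl⟩
    · rw [← proj_Str (i := i) ⟨n, Or.inl rfl⟩]; exact ⟨z1, a2, rfl⟩
  have m2 : proj GR z2 ∈ proj GR '' axis h ∩ cur i := by
    refine ⟨?_, ?_⟩
    · rw [← him, ← hwe]; exact ⟨z2, b1, rfl⟩
    · rw [← proj_Str (i := i) ⟨n', Or.inr rfl⟩]; exact ⟨z2, b2, rfl⟩
  obtain ⟨k', hk', hkz⟩ := proj_eq_iff.1 (hle _ _ m1 m2)
  obtain ⟨m, rfl⟩ := strip_equiv hk' b3 (by rw [hkz]; exact a3)
  have r1 := TopS_re (Str_top_lt i n) (Str_top i n) a2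
  have r2 := BotS_re (Str_bot_lt i n') (Str_bot i n') b2
  rw [← hkz, (Am_zpow _ _).1] at r1
  have := zpow_pos mu_pos (48 * m)
  nlinarith

/-- The 25 curves. -/
def Γ0 : Set (Set (Surf GR)) := insert core (Set.range cur)

theorem Γ0_finite : Γ0.Finite := (Set.finite_range cur).insert core

theorem Γ0_one (hex : Exh) : IsOneSystem GR Γ0 := by
  constructor
  · rintro c (rfl | ⟨i, rfl⟩)
    · exact core_isCurve hex
    · exact cur_isCurve hex i
  · rintro c (rfl | ⟨i, rfl⟩) d (rfl | ⟨j, rfl⟩) hcd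
    · exact absurd rfl hcd
    · rw [core_cur hex]; simp
    · rw [Set.inter_comm, core_cur hex]; simp
    · exact cur_inter hex (fun h => hcd (by rw [h]))

theorem Γ0_nonsep (hex : Exh) : ∀ c ∈ Γ0, ∃ d, IsCurve GR d ∧ (c ∩ d).encard = 1 := by
  rintro c (rfl | ⟨i, rfl⟩)
  · exact ⟨dual, dual_isCurve hex, core_dual hex⟩
  · obtain ⟨j, _, h⟩ := cur_partner hex i
    exact ⟨cur j, cur_isCurve hex j, h⟩

/-- Every other curve of a 1-system containing `Γ0` is disjoint from the core. -/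
theorem isolated (hex : Exh) {Γ : Set (Set (Surf GR))} (hΓ : IsOneSystem GR Γ) (h0 : Γ0 ⊆ Γ) :
    ∀ c ∈ Γ, c ≠ core → Disjoint c core := by
  intro c hc hne
  by_contra hd
  rw [Set.not_disjoint_iff_nonempty_inter] at hd
  obtain ⟨g, hg, hyp, rfl, _⟩ := hΓ.1 c hc
  obtain ⟨i, hi⟩ := blocked hg hyp hd hne
  by_cases hci : proj GR '' axis g = cur i
  · rw [hci, Set.inter_comm, core_cur hex i] at hd
    exact hd.ne_empty rfl
  · exact hi (hΓ.2 _ hc _ (h0 (Or.inr ⟨i, rfl⟩)) hci)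

end

end Pool.Agent.Run7.h775.OneSys
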