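import Mathlib

/-!
The combinatorial pattern: 24 pairs of arcs `[a i, b i]`, `[a' i, b' i]` on two circles with 48 marked points
each.  (It comes from a tiling of the torus by 24 rectangles such that each maximal segment is a full side of a
rectangle.)
-/

namespace Pool.Agent.Run7.h775.OneSys

def nA : List ℕ := [2, 3, 18, 19, 34, 35, 4, 5, 20, 21, 36, 37, 0, 1, 16, 17, 32, 33, 8, 9, 24, 25, 40, 41]
def nB : List ℕ := [13, 12, 29, 28, 45, 44, 11, 10, 27, 26, 43, 42, 31, 30, 47, 46, 63, 62, 23, 22, 39, 38, 55, 54]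
def nA' : List ℕ := [1, 25, 9, 33, 17, 41, 18, 42, 26, 2, 34, 10, 20, 44, 28, 4, 36, 12, 0, 24, 8, 32, 16, 40]
def nB' : List ℕ := [14, 38, 22, 46, 30, 54, 21, 45, 29, 5, 37, 13, 27, 51, 35, 11, 43, 19, 23, 47, 31, 55, 39, 63]
def sigL : List ℕ := [20, 44, 1, 25, 18, 42, 15, 39, 0, 24, 45, 21, 38, 14, 19, 43, 28, 4, 9, 33, 26, 2, 47, 23,
  8, 32, 5, 29, 46, 22, 3, 27, 36, 12, 17, 41, 34, 10, 7, 31, 16, 40, 13, 37, 6, 30, 11, 35]
def sigInvL : List ℕ := [8, 2, 21, 30, 17, 26, 44, 38, 24, 18, 37, 46, 33, 42, 13, 6, 40, 34, 4, 14, 0, 11, 29, 23,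
  9, 3, 20, 31, 16, 27, 45, 39, 25, 19, 36, 47, 32, 43, 12, 7, 41, 35, 5, 15, 1, 10, 28, 22]

/-- first top slot of the `i`-th curve -/
def nsa (i : Fin 24) : ℕ := nA.getD i.1 0
/-- second top slot of the `i`-th curve -/
def nsb (i : Fin 24) : ℕ := nB.getD i.1 0
/-- first bottom slot of the `i`-th curve -/
def nsa' (i : Fin 24) : ℕ := nA'.getD i.1 0
/-- second bottom slot of the `i`-th curve -/
def nsb' (i : Fin 24) : ℕ := nB'.getD i.1 0

/-- The gluing permutation: the `k`-th top edge is glued to the `sig k`-th bottom edge. -/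
def sig : Equiv.Perm (ZMod 48) where
  toFun c := ((sigL.getD c.val 0 : ℕ) : ZMod 48)
  invFun c := ((sigInvL.getD c.val 0 : ℕ) : ZMod 48)
  left_inv := by decide +kernel
  right_inv := by decide +kernel

theorem sig_a : ∀ i : Fin 24, sig (nsa i : ZMod 48) = (nsa' i : ZMod 48) := by decide +kernel
theorem sig_b : ∀ i : Fin 24, sig (nsb i : ZMod 48) = (nsb' i : ZMod 48) := by decide +kernel

theorem cover_fin : ∀ c c' : Fin 48, ∃ i : Fin 24,
    ((nsa i < c.1 ∧ c.1 < nsb i) ∨ (nsa i < c.1 + 48 ∧ c.1 + 48 < nsb i)) ∧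
    ((nsa' i < c'.1 ∧ c'.1 < nsb' i) ∨ (nsa' i < c'.1 + 48 ∧ c'.1 + 48 < nsb' i)) := by
  decide +kernel

/-- interleaving of slots -/
def inter (p r p' r' : ℤ) : Prop := (p < p' ∧ p' < r ∧ r < r') ∨ (p' < p ∧ p < r' ∧ r' < r)

instance (p r p' r' : ℤ) : Decidable (inter p r p' r') := by unfold inter; infer_instance

/-- same on natural numbers -/
def ninter (p r p' r' : ℕ) : Prop := (p < p' ∧ p' < r ∧ r < r') ∨ (p' < p ∧ p < r' ∧ r' < r)

instance (p r p' r' : ℕ) : Decidable (ninter p r p' r') := by unfold ninter; infer_instance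

/-- crossing of the `i`-th curve with the `s-1`-th translate of the `j`-th, at the top or at the bottom -/
def nI (e : Bool) (i j : Fin 24) (s : Fin 3) : Prop :=
  match e with
  | true => ninter (nsa i + 48) (nsb i + 48) (nsa j + 48 * s.1) (nsb j + 48 * s.1)
  | false => ninter (nsa' i + 48) (nsb' i + 48) (nsa' j + 48 * s.1) (nsb' j + 48 * s.1)

instance (e : Bool) (i j : Fin 24) (s : Fin 3) : Decidable (nI e i j s) := by
  unfold nI; cases e <;> infer_instance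

theorem nI_unique : ∀ i j : Fin 24, i ≠ j → ∀ (e1 e2 : Bool) (s1 s2 : Fin 3), nI e1 i j s1 → nI e2 i j s2 →
    e1 = e2 ∧ s1 = s2 := by
  decide +kernel

theorem nI_self : ∀ (i : Fin 24) (e : Bool) (s : Fin 3), ¬ nI e i i s := by
  decide +kernel

theorem nI_exists : ∀ i : Fin 24, ∃ (j : Fin 24) (e : Bool) (s : Fin 3), i ≠ j ∧ nI e i j s := by
  decide +kernel

theorem nrange : ∀ i : Fin 24, nsa i < 48 ∧ nsa i + 2 ≤ nsb i ∧ nsb i < nsa i + 48 ∧
    nsa' i < 48 ∧ nsa' i + 2 ≤ nsb' i ∧ nsb' i < nsa' i + 48 := by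
  decide +kernel

theorem nslots : ∀ i j : Fin 24, (nsa i % 48 = nsa j % 48 → i = j) ∧ (nsb i % 48 = nsb j % 48 → i = j) ∧
    nsa i % 48 ≠ nsb j % 48 ∧ (nsa' i % 48 = nsa' j % 48 → i = j) ∧ (nsb' i % 48 = nsb' j % 48 → i = j) ∧
    nsa' i % 48 ≠ nsb' j % 48 := by
  decide +kernel

def sa (i : Fin 24) : ℤ := nsa i
def sb (i : Fin 24) : ℤ := nsb i
def sa' (i : Fin 24) : ℤ := nsa' i
def sb' (i : Fin 24) : ℤ := nsb' i

theorem srange (i : Fin 24) : 0 ≤ sa i ∧ sa i < 48 ∧ sa i + 2 ≤ sb i ∧ sb i < sa i + 48 ∧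
    0 ≤ sa' i ∧ sa' i < 48 ∧ sa' i + 2 ≤ sb' i ∧ sb' i < sa' i + 48 := by
  have := nrange i
  unfold sa sb sa' sb'
  omega

theorem saa {i j : Fin 24} {n : ℤ} (h : sa i = sa j + 48 * n) : i = j ∧ n = 0 := by
  have h1 := (nslots i j).1
  have h2 := srange i
  have h3 := srange j
  unfold sa at *
  refine ⟨h1 (by omega), by omega⟩

theorem saa' {i j : Fin 24} {n : ℤ} (h : sa' i = sa' j + 48 * n) : i = j ∧ n = 0 := by
  have h1 := (nslots i j).2.2.2.1
  have h2 := srange i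
  have h3 := srange j
  unfold sa' at *
  refine ⟨h1 (by omega), by omega⟩

theorem sbb {i j : Fin 24} {n : ℤ} (h : sb i = sb j + 48 * n) : i = j ∧ n = 0 := by
  have h1 := (nslots i j).2.1
  unfold sb at h
  have h2 : i = j := h1 (by omega)
  subst h2
  exact ⟨rfl, by omega⟩

theorem sbb' {i j : Fin 24} {n : ℤ} (h : sb' i = sb' j + 48 * n) : i = j ∧ n = 0 := by
  have h1 := (nslots i j).2.2.2.2.1
  unfold sb' at h
  have h2 : i = j := h1 (by omega)
  subst h2
  exact ⟨rfl, by omega⟩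

theorem sab {i j : Fin 24} {n : ℤ} : sa i ≠ sb j + 48 * n := by
  have h1 := (nslots i j).2.2.1
  unfold sa sb
  omega

theorem sab' {i j : Fin 24} {n : ℤ} : sa' i ≠ sb' j + 48 * n := by
  have h1 := (nslots i j).2.2.2.2.2
  unfold sa' sb'
  omega

/-- crossing of the `i`-th curve with the `n`-th translate of the `j`-th curve -/
def I (e : Bool) (i j : Fin 24) (n : ℤ) : Prop :=
  match e with
  | true => inter (sa i) (sb i) (sa j + 48 * n) (sb j + 48 * n)
  | false => inter (sa' i) (sb' i) (sa' j + 48 * n) (sb' j + 48 * n)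

theorem I_nI {e : Bool} {i j : Fin 24} {n : ℤ} (h : I e i j n) :
    ∃ s : Fin 3, (s.1 : ℤ) = n + 1 ∧ nI e i j s := by
  have h2 := nrange i
  have h3 := nrange j
  have hn : -1 ≤ n ∧ n ≤ 1 := by
    cases e
    · simp only [I, inter, sa', sb'] at h; omega
    · simp only [I, inter, sa, sb] at h; omega
  refine ⟨⟨(n + 1).toNat, by omega⟩, by simp; omega, ?_⟩
  cases e
  · simp only [I, inter, sa', sb'] at h
    simp only [nI, ninter]
    omega
  · simp only [I, inter, sa, sb] at h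
    simp only [nI, ninter]
    omega

theorem nI_I {e : Bool} {i j : Fin 24} {s : Fin 3} (h : nI e i j s) : I e i j ((s.1 : ℤ) - 1) := by
  cases e
  · simp only [nI, ninter] at h
    simp only [I, inter, sa', sb']
    omega
  · simp only [nI, ninter] at h
    simp only [I, inter, sa, sb]
    omega

theorem I_unique {i j : Fin 24} (hij : i ≠ j) {e1 e2 : Bool} {n1 n2 : ℤ} (h1 : I e1 i j n1) (h2 : I e2 i j n2) :
    e1 = e2 ∧ n1 = n2 := by
  obtain ⟨s1, a1, b1⟩ := I_nI h1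
  obtain ⟨s2, a2, b2⟩ := I_nI h2
  obtain ⟨h, h'⟩ := nI_unique i j hij e1 e2 s1 s2 b1 b2
  refine ⟨h, ?_⟩
  rw [h'] at a1
  omega

theorem I_self {i : Fin 24} {e : Bool} {n : ℤ} : ¬ I e i i n := by
  intro h
  obtain ⟨s, a, b⟩ := I_nI h
  exact nI_self i e s b

theorem I_exists (i : Fin 24) : ∃ (j : Fin 24) (e : Bool) (n : ℤ), i ≠ j ∧ I e i j n := by
  obtain ⟨j, e, s, h1, h2⟩ := nI_exists i
  exact ⟨j, e, _, h1, nI_I h2⟩

theorem cover (c c' : ℤ) : ∃ (i : Fin 24) (n n' : ℤ), sa i + 48 * n < c ∧ c < sb i + 48 * n ∧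
    sa' i + 48 * n' < c' ∧ c' < sb' i + 48 * n' := by
  have hc := Int.emod_nonneg c (show (48 : ℤ) ≠ 0 by norm_num)
  have hc' := Int.emod_nonneg c' (show (48 : ℤ) ≠ 0 by norm_num)
  have hd := Int.emod_lt_of_pos c (show (0 : ℤ) < 48 by norm_num)
  have hd' := Int.emod_lt_of_pos c' (show (0 : ℤ) < 48 by norm_num)
  obtain ⟨i, h, h'⟩ := cover_fin ⟨(c % 48).toNat, by omega⟩ ⟨(c' % 48).toNat, by omega⟩
  simp only at h h'
  have e1 := Int.emod_add_mul_ediv c 48
  have e2 := Int.emod_add_mul_ediv c' 48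
  have h1 : ∃ n : ℤ, sa i + 48 * n < c ∧ c < sb i + 48 * n := by
    unfold sa sb
    rcases h with h | h
    · exact ⟨c / 48, by omega, by omega⟩
    · exact ⟨c / 48 - 1, by omega, by omega⟩
  have h2 : ∃ n : ℤ, sa' i + 48 * n < c' ∧ c' < sb' i + 48 * n := by
    unfold sa' sb'
    rcases h' with h | h
    · exact ⟨c' / 48, by omega, by omega⟩
    · exact ⟨c' / 48 - 1, by omega, by omega⟩
  obtain ⟨n, a, b⟩ := h1
  obtain ⟨n', a', b'⟩ := h2
  exact ⟨i, n, n', a, b, a', b'⟩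

end Pool.Agent.Run7.h775.OneSys
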