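import Mathlib

/-!
# 1-systems of simple closed geodesics on `G\ℍ`

Definitions for MP_14cec7_gt.
-/

open UpperHalfPlane MatrixGroups Pointwise

namespace Pool.Agent.Run7.h775.OneSys

noncomputable section

/-- `g ∈ SL(2,ℝ)` is hyperbolic. -/
def IsHyp (g : SL(2, ℝ)) : Prop := 2 < |g 0 0 + g 1 1|

/-- The axis of a hyperbolic `g = (a b; c d)`: the geodesic of `ℍ` joining the two fixed points of
`g` in `ℝ ∪ {∞}`, that is the two roots of `c t² + (d - a) t - b`. -/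
def axis (g : SL(2, ℝ)) : Set ℍ :=
  {z | g 1 0 * (z.re ^ 2 + z.im ^ 2) + (g 1 1 - g 0 0) * z.re - g 0 1 = 0}

/-- The surface `G\ℍ` (as a set of orbits). -/
abbrev Surf (G : Subgroup SL(2, ℝ)) : Type := MulAction.orbitRel.Quotient G ℍ

/-- The projection `ℍ → G\ℍ`. -/
def proj (G : Subgroup SL(2, ℝ)) (z : ℍ) : Surf G := Quotient.mk _ z

/-- `c ⊆ G\ℍ` is a simple closed geodesic: the image of the axis of a hyperbolic element of `G`
whose translates under `G` are pairwise equal or disjoint. -/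
def IsCurve (G : Subgroup SL(2, ℝ)) (c : Set (Surf G)) : Prop :=
  ∃ g ∈ G, IsHyp g ∧ c = proj G '' axis g ∧
    ∀ k ∈ G, k • axis g = axis g ∨ Disjoint (k • axis g) (axis g)

/-- A 1-system on `G\ℍ`: a set of simple closed geodesics, any two of which meet at most once. -/
def IsOneSystem (G : Subgroup SL(2, ℝ)) (Γ : Set (Set (Surf G))) : Prop :=
  (∀ c ∈ Γ, IsCurve G c) ∧ ∀ c ∈ Γ, ∀ d ∈ Γ, c ≠ d → (c ∩ d).encard ≤ 1

/-- `Γ` fills `G\ℍ`: no path in `ℍ` avoiding all lifts of the curves of `Γ` joins a point `z` to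
`g • z` with `g ∈ G` hyperbolic. -/
def Fills (G : Subgroup SL(2, ℝ)) (Γ : Set (Set (Surf G))) : Prop :=
  ∀ g ∈ G, IsHyp g → ∀ z : ℍ, ¬ JoinedIn {w : ℍ | proj G w ∉ ⋃₀ Γ} z (g • z)

theorem proj_eq_iff {G : Subgroup SL(2, ℝ)} {z w : ℍ} :
    proj G z = proj G w ↔ ∃ k ∈ G, k • w = z := by
  unfold proj
  rw [Quotient.eq]
  change z ∈ MulAction.orbit G w ↔ _
  constructor
  · rintro ⟨⟨k, hk⟩, h⟩
    exact ⟨k, hk, h⟩
  · rintro ⟨k, hk, h⟩
    exact ⟨⟨k, hk⟩, h⟩

theorem coe_smul_eq (g : SL(2, ℝ)) (z : ℍ) :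
    ((g • z : ℍ) : ℂ) = (g 0 0 * z + g 0 1) / (g 1 0 * z + g 1 1) := by
  rw [coe_specialLinearGroup_apply]; simp

theorem den_pos (g : SL(2, ℝ)) (z : ℍ) :
    0 < (g 1 0 * z.re + g 1 1) ^ 2 + (g 1 0 * z.im) ^ 2 := by
  have hz := z.im_pos
  by_contra h
  have h1 : g 1 0 * z.re + g 1 1 = 0 ∧ g 1 0 * z.im = 0 := by
    constructor <;> nlinarith [sq_nonneg (g 1 0 * z.re + g 1 1), sq_nonneg (g 1 0 * z.im)]
  have h2 : g 1 0 = 0 := by
    rcases mul_eq_zero.1 h1.2 with h | h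
    · exact h
    · exact absurd h hz.ne'
  have h3 : g 1 1 = 0 := by simpa [h2] using h1.1
  have := g.det_coe
  rw [Matrix.det_fin_two] at this
  simp [h2, h3] at this

theorem det_eq (g : SL(2, ℝ)) : g 0 0 * g 1 1 - g 0 1 * g 1 0 = 1 := by
  have := g.det_coe
  rwa [Matrix.det_fin_two] at this

theorem re_smul_eq (g : SL(2, ℝ)) (z : ℍ) :
    (g • z).re * ((g 1 0 * z.re + g 1 1) ^ 2 + (g 1 0 * z.im) ^ 2) =
      (g 0 0 * z.re + g 0 1) * (g 1 0 * z.re + g 1 1) + g 0 0 * g 1 0 * z.im ^ 2 := by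
  have hp := den_pos g z
  have h1 : ((g • z : ℍ) : ℂ) * (g 1 0 * z + g 1 1) = g 0 0 * z + g 0 1 := by
    rw [coe_smul_eq, div_mul_cancel₀]
    intro h
    have hr := congrArg Complex.re h
    have hi := congrArg Complex.im h
    simp at hr hi
    rw [hr] at hp
    rcases hi with hi | hi <;> simp [hi] at hp
  have hr := congrArg Complex.re h1
  have hi := congrArg Complex.im h1
  simp only [Complex.mul_re, Complex.add_re, Complex.ofReal_re, Complex.add_im, Complex.mul_im,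
    Complex.ofReal_im, UpperHalfPlane.coe_re, UpperHalfPlane.coe_im] at hr hi
  ring_nf at hr hi ⊢
  linear_combination (g 1 0 * z.re + g 1 1) * hr + (g 1 0 * z.im) * hi

theorem im_smul_eq (g : SL(2, ℝ)) (z : ℍ) :
    (g • z).im * ((g 1 0 * z.re + g 1 1) ^ 2 + (g 1 0 * z.im) ^ 2) = z.im := by
  have hp := den_pos g z
  have h1 : ((g • z : ℍ) : ℂ) * (g 1 0 * z + g 1 1) = g 0 0 * z + g 0 1 := by
    rw [coe_smul_eq, div_mul_cancel₀]
    intro h
    have hr := congrArg Complex.re h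
    have hi := congrArg Complex.im h
    simp at hr hi
    rw [hr] at hp
    rcases hi with hi | hi <;> simp [hi] at hp
  have hr := congrArg Complex.re h1
  have hi := congrArg Complex.im h1
  have hd := det_eq g
  simp only [Complex.mul_re, Complex.add_re, Complex.ofReal_re, Complex.add_im, Complex.mul_im,
    Complex.ofReal_im, UpperHalfPlane.coe_re, UpperHalfPlane.coe_im] at hr hi
  ring_nf at hr hi hd ⊢
  linear_combination (g 1 0 * z.re + g 1 1) * hi - (g 1 0 * z.im) * hr + z.im * hd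

end

end Pool.Agent.Run7.h775.OneSys
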