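import Pool.Agent.Run7.h775.OneSys.Pos

set_option linter.unusedSimpArgs false

open UpperHalfPlane MatrixGroups Pointwise

namespace Pool.Agent.Run7.h775.OneSys

noncomputable section

/-- Monodromy of the square-tiled surface with 48 squares. -/
def mono : FreeGroup Bool →* Equiv.Perm (ZMod 48) :=
  FreeGroup.lift (fun b => if b then Equiv.subRight (1 : ZMod 48) else sig⁻¹)

/-- The subgroup of the free group. -/
def G : Subgroup (FreeGroup Bool) :=
  (MulAction.stabilizer (Equiv.Perm (ZMod 48)) (0 : ZMod 48)).comap mono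

theorem mem_G {w : FreeGroup Bool} : w ∈ G ↔ mono w 0 = 0 := Iff.rfl

theorem mono_A_zpow (m : ℤ) (c : ZMod 48) : mono (gA ^ m) c = c - m := by
  rw [map_zpow]
  have h : mono gA = Equiv.subRight (1 : ZMod 48) := by simp [mono, gA]
  rw [h]
  induction m using Int.induction_on generalizing c with
  | zero => simp
  | succ n ih =>
    rw [zpow_add, zpow_one, Equiv.Perm.mul_apply, ih]
    simp [Equiv.subRight]; ring
  | pred n ih =>
    rw [zpow_sub, zpow_one, Equiv.Perm.mul_apply, ih]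
    have : (Equiv.subRight (1 : ZMod 48))⁻¹ c = c + 1 := by
      rw [Equiv.Perm.inv_eq_iff_eq]; simp [Equiv.subRight]
    rw [this]
    push_cast
    ring

theorem mono_B : mono gB = sig⁻¹ := by simp [mono, gB]

theorem A_mem {m : ℤ} : gA ^ m ∈ G ↔ ∃ n : ℤ, m = 48 * n := by
  rw [mem_G, mono_A_zpow, zero_sub, neg_eq_zero, ZMod.intCast_zmod_eq_zero_iff_dvd]
  rfl

theorem T_mem {k k' : ℤ} (h : sig (k : ZMod 48) = (k' : ZMod 48)) : T k k' ∈ G := by
  rw [mem_G, T, map_mul, map_mul, Equiv.Perm.mul_apply, Equiv.Perm.mul_apply, mono_A_zpow, mono_A_zpow,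
    mono_B]
  have : sig⁻¹ (0 - ((-k' : ℤ) : ZMod 48)) = (k : ZMod 48) := by
    rw [Equiv.Perm.inv_eq_iff_eq, h]; push_cast; ring
  rw [this, sub_self]

/-- the Fuchsian group -/
def GR : Subgroup SL(2, ℝ) := G.map rep

theorem rep_mem_GR {w : FreeGroup Bool} (h : w ∈ G) : rep w ∈ GR := ⟨w, h, rfl⟩

/-- A set of geodesics crossing the strip, closed under passing through the edges. -/
def Good (S : Set (Set ℍ)) : Prop :=
  (∀ L ∈ S, ∀ k, ∀ z ∈ L, z ∈ X (k, true) → ∃ k', T k k' ∈ G ∧ (rep (T k k'))⁻¹ • L ∈ S) ∧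
  (∀ L ∈ S, ∀ k', ∀ z ∈ L, z ∈ X (k', false) → ∃ k, T k k' ∈ G ∧ rep (T k k') • L ∈ S)

theorem descent {S : Set (Set ℍ)} (hS : Good S) : ∀ (n : ℕ) (w : FreeGroup Bool) (o), NF w n o →
    ∀ z ∈ Wp, ∀ L ∈ S, rep w • z ∈ L → ∃ h ∈ G, ∃ m : ℤ, w = h * gA ^ m ∧ (rep h)⁻¹ • L ∈ S := by
  intro n
  induction n with
  | zero =>
    intro w o hw z hz L hL hzL
    cases hw with
    | pow k => exact ⟨1, G.one_mem, k, by simp, by simpa using hL⟩
  | succ n ih =>
    intro w o hw z hz L hL hzL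
    cases hw with
    | cons k e w n o h ho =>
    have hX := NF_X_some (NF.cons k e w n o h ho) hz
    cases e
    · -- bottom
      obtain ⟨k0, hT, hL'⟩ := hS.2 L hL k _ hzL hX
      have hw' := NF_A h k0
      have e1 : gA ^ k * gBp false * w = (T k0 k)⁻¹ * (gA ^ k0 * w) := by
        unfold T gBp; group
      have e2 : rep (gA ^ k0 * w) • z ∈ rep (T k0 k) • L := by
        have : gA ^ k0 * w = T k0 k * (gA ^ k * gBp false * w) := by rw [e1]; group
        rw [this, map_mul, mul_smul]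
        exact Set.smul_mem_smul_set hzL
      obtain ⟨h', hh', m, e3, hS'⟩ := ih _ _ hw' z hz _ hL' e2
      refine ⟨(T k0 k)⁻¹ * h', G.mul_mem (G.inv_mem hT) hh', m, ?_, ?_⟩
      · rw [e1, e3, mul_assoc]
      · rw [map_mul, map_inv, mul_inv_rev, inv_inv, mul_smul]; exact hS'
    · obtain ⟨k', hT, hL'⟩ := hS.1 L hL k _ hzL hX
      have hw' := NF_A h k'
      have e1 : gA ^ k * gBp true * w = T k k' * (gA ^ k' * w) := by
        unfold T gBp; group
      have e2 : rep (gA ^ k' * w) • z ∈ (rep (T k k'))⁻¹ • L := by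
        have : gA ^ k' * w = (T k k')⁻¹ * (gA ^ k * gBp true * w) := by rw [e1]; group
        rw [this, map_mul, mul_smul, map_inv]
        exact Set.smul_mem_smul_set hzL
      obtain ⟨h', hh', m, e3, hS'⟩ := ih _ _ hw' z hz _ hL' e2
      refine ⟨T k k' * h', G.mul_mem hT hh', m, ?_, ?_⟩
      · rw [e1, e3, mul_assoc]
      · rw [map_mul, mul_inv_rev, mul_smul]; exact hS'

theorem descent' {S : Set (Set ℍ)} (hS : Good S) {w : FreeGroup Bool} {z : ℍ} (hz : z ∈ Wp) {L : Set ℍ}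
    (hL : L ∈ S) (hzL : rep w • z ∈ L) : ∃ h ∈ G, ∃ m : ℤ, w = h * gA ^ m ∧ (rep h)⁻¹ • L ∈ S := by
  obtain ⟨n, o, h⟩ := NF_exists w
  exact descent hS n w o h z hz L hL hzL

theorem rep_injective : Function.Injective rep := by
  rw [injective_iff_map_eq_one]
  intro w hw
  obtain ⟨z, hz, _⟩ := Wp_nonempty
  have h1 : rep w • z ∈ Wp := by rw [hw, one_smul]; exact hz
  obtain ⟨k, rfl⟩ := strip_stab hz h1
  rw [rep_gA_zpow] at hw
  have : k = 0 := Am_free (z := z) (by rw [hw, one_smul])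
  rw [this, zpow_zero]

theorem rep_mem_GR_iff {w : FreeGroup Bool} : rep w ∈ GR ↔ w ∈ G := by
  constructor
  · rintro ⟨v, hv, h⟩
    rwa [← rep_injective h]
  · exact rep_mem_GR

/-- Points of the strip equivalent under the group differ by a power of `a = A^48`. -/
theorem strip_equiv {k : SL(2, ℝ)} (hk : k ∈ GR) {z : ℍ} (hz : z ∈ Wp) (hkz : k • z ∈ Wp) :
    ∃ n : ℤ, k = Am ^ (48 * n) := by
  obtain ⟨w, hw, rfl⟩ := hk
  obtain ⟨m, rfl⟩ := strip_stab hz hkz
  obtain ⟨n, rfl⟩ := A_mem.1 hw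
  exact ⟨n, rep_gA_zpow _⟩

theorem a_mem (n : ℤ) : Am ^ (48 * n) ∈ GR := by
  rw [← rep_gA_zpow]
  exact rep_mem_GR (A_mem.2 ⟨n, rfl⟩)

end

end Pool.Agent.Run7.h775.OneSys
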