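import Pool.Agent.Run7.h775.OneSys.Vertex

set_option linter.unusedSimpArgs false
set_option maxHeartbeats 4000000

open UpperHalfPlane MatrixGroups Pointwise

namespace Pool.Agent.Run7.h775.OneSys

noncomputable section

/-- The exhaustion property (proved in a separate file). -/
def Exh : Prop := ∀ z : ℍ, ∃ w : FreeGroup Bool, rep w • z ∈ Wp

theorem G_exh (hex : Exh) (x : ℍ) : ∃ h ∈ G, ∃ z ∈ Wp, x = rep h • z := by
  obtain ⟨w, hw⟩ := hex x
  -- x = rep w⁻¹ • z0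
  set m : ℤ := (((mono w⁻¹)⁻¹ (0 : ZMod 48)).val : ℤ) with hm
  refine ⟨w⁻¹ * gA ^ (-m), ?_, Am ^ m • (rep w • x), Wp_A m hw, ?_⟩
  · rw [mem_G, map_mul, Equiv.Perm.mul_apply, mono_A_zpow]
    have : (0 : ZMod 48) - ((-m : ℤ) : ZMod 48) = (mono w⁻¹)⁻¹ 0 := by
      rw [hm]; push_cast
      rw [zero_sub, neg_neg, ZMod.natCast_zmod_val]
    rw [this]
    rw [← Equiv.Perm.mul_apply, mul_inv_cancel]; rfl
  · rw [map_mul, rep_gA_zpow, map_inv, mul_smul, smul_smul (Am ^ (-m)), ← zpow_add, neg_add_cancel, zpow_zero,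
      one_smul, inv_smul_smul]

/-- A family of strands. -/
structure Fam (S : Set (Set ℍ)) : Prop where
  good : Good S
  acl : ∀ L ∈ S, ∀ n : ℤ, Am ^ (48 * n) • L ∈ S
  sep : ∀ M ∈ S, ∀ N ∈ S, ∀ z, z ∈ M → z ∈ N → M = N

theorem Fam.tr {S : Set (Set ℍ)} (hS : Fam S) {L : Set ℍ} (hL : L ∈ S) {z : ℍ} (hz : z ∈ Wp)
    {h : FreeGroup Bool} (hh : h ∈ G) (hzL : rep h • z ∈ L) : (rep h)⁻¹ • L ∈ S := by
  obtain ⟨h2, hh2, m, e, h3⟩ := descent' hS.good hz hL hzL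
  have hm : gA ^ m ∈ G := by
    have : gA ^ m = h2⁻¹ * h := by rw [e]; group
    rw [this]; exact G.mul_mem (G.inv_mem hh2) hh
  obtain ⟨n, rfl⟩ := A_mem.1 hm
  have := hS.acl _ h3 (-n)
  rw [e, map_mul, mul_inv_rev, mul_smul, rep_gA_zpow, ← zpow_neg]
  rwa [show (48 : ℤ) * -n = -(48 * n) by ring] at this

theorem Fam.simple (hex : Exh) {S : Set (Set ℍ)} (hS : Fam S) {L : Set ℍ} (hL : L ∈ S) :
    ∀ k ∈ GR, k • L = L ∨ Disjoint (k • L) L := by
  rintro _ ⟨κ, hκ, rfl⟩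
  rw [or_iff_not_imp_right]
  intro hd
  rw [Set.not_disjoint_iff] at hd
  obtain ⟨x, hx1, hx2⟩ := hd
  obtain ⟨h, hh, z, hz, rfl⟩ := G_exh hex x
  have h1 := hS.tr hL hz hh hx2
  have h2 : rep (κ⁻¹ * h) • z ∈ L := by
    rw [map_mul, mul_smul, map_inv]
    exact Set.mem_smul_set_iff_inv_smul_mem.1 hx1
  have h3 := hS.tr hL hz (G.mul_mem (G.inv_mem hκ) hh) h2
  have h4 := hS.sep _ h1 _ h3 z (Set.mem_smul_set_iff_inv_smul_mem.2 (by rwa [inv_inv]))
    (Set.mem_smul_set_iff_inv_smul_mem.2 (by rwa [inv_inv]))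
  rw [map_mul, mul_inv_rev, map_inv, inv_inv, mul_smul] at h4
  have h5 := congrArg (fun M => rep h • M) h4
  simp only [smul_inv_smul] at h5
  exact h5.symm

/-- A common point of two closed geodesics is represented in the strip. -/
theorem Fam.pair (hex : Exh) {S1 S2 : Set (Set ℍ)} (h1 : Fam S1) (h2 : Fam S2) {L1 L2 : Set ℍ} (hL1 : L1 ∈ S1)
    (hL2 : L2 ∈ S2) {s : Surf GR} (hs : s ∈ proj GR '' L1 ∩ proj GR '' L2) :
    ∃ z ∈ Wp, ∃ M1 ∈ S1, ∃ M2 ∈ S2, z ∈ M1 ∧ z ∈ M2 ∧ proj GR z = s := by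
  obtain ⟨⟨x1, hx1, e1⟩, ⟨x2, hx2, e2⟩⟩ := hs
  obtain ⟨h, hh, z, hz, rfl⟩ := G_exh hex x1
  obtain ⟨_, ⟨κ, hκ, rfl⟩, hk⟩ := proj_eq_iff.1 (e2.trans e1.symm)
  -- rep κ • rep h • z = x2
  have hx2' : rep (κ * h) • z ∈ L2 := by rw [map_mul, mul_smul, hk]; exact hx2
  refine ⟨z, hz, (rep h)⁻¹ • L1, h1.tr hL1 hz hh hx1, (rep (κ * h))⁻¹ • L2,
    h2.tr hL2 hz (G.mul_mem hκ hh) hx2', ?_, ?_, ?_⟩
  · exact Set.mem_smul_set_iff_inv_smul_mem.2 (by rwa [inv_inv])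
  · exact Set.mem_smul_set_iff_inv_smul_mem.2 (by rwa [inv_inv])
  · rw [← e1]
    exact proj_eq_iff.2 ⟨(rep h)⁻¹, GR.inv_mem (rep_mem_GR hh), inv_smul_smul _ _⟩

theorem Fam.encard_le (hex : Exh) {S1 S2 : Set (Set ℍ)} (h1 : Fam S1) (h2 : Fam S2) {L1 L2 : Set ℍ} (hL1 : L1 ∈ S1)
    (hL2 : L2 ∈ S2)
    (hu : ∀ z ∈ Wp, ∀ w ∈ Wp, ∀ M1 ∈ S1, ∀ M2 ∈ S2, ∀ N1 ∈ S1, ∀ N2 ∈ S2, z ∈ M1 → z ∈ M2 → w ∈ N1 → w ∈ N2 →
      ∃ n : ℤ, Am ^ (48 * n) • z = w) : (proj GR '' L1 ∩ proj GR '' L2).encard ≤ 1 := by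
  rw [Set.encard_le_one_iff]
  intro s t hs ht
  obtain ⟨z, hz, M1, hM1, M2, hM2, a, b, rfl⟩ := Fam.pair hex h1 h2 hL1 hL2 hs
  obtain ⟨w, hw, N1, hN1, N2, hN2, c, d, rfl⟩ := Fam.pair hex h1 h2 hL1 hL2 ht
  obtain ⟨n, hn⟩ := hu z hz w hw M1 hM1 M2 hM2 N1 hN1 N2 hN2 a b c d
  exact (proj_eq_iff.2 ⟨Am ^ (48 * n), a_mem n, hn⟩).symm

/-! ### The families -/

def ta (i : Fin 24) : FreeGroup Bool := T (sa i) (sa' i)
def tb (i : Fin 24) : FreeGroup Bool := T (sb i) (sb' i)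

theorem ta_mem (i : Fin 24) : ta i ∈ G := T_mem (by have := sig_a i; simpa [sa, sa'] using this)
theorem tb_mem (i : Fin 24) : tb i ∈ G := T_mem (by have := sig_b i; simpa [sb, sb'] using this)

/-- the hyperbolic elements of the 24 curves -/
def gi (i : Fin 24) : FreeGroup Bool := tb i * (ta i)⁻¹

theorem gi_mem (i : Fin 24) : gi i ∈ G := G.mul_mem (tb_mem i) (G.inv_mem (ta_mem i))

def Lt (i : Fin 24) : Set ℍ := axis (rep (gi i))
def Lb (i : Fin 24) : Set ℍ := axis (rep ((ta i)⁻¹ * tb i))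

theorem Lt_top (i : Fin 24) : TopS (sa i) (sb i) (Lt i) :=
  (top_axis (by have := srange i; omega) (by have := srange i; omega)).1
theorem gi_hyp (i : Fin 24) : IsHyp (rep (gi i)) :=
  (top_axis (by have := srange i; omega) (by have := srange i; omega)).2
theorem Lb_bot (i : Fin 24) : BotS (sa' i) (sb' i) (Lb i) :=
  bot_axis (by have := srange i; omega) (by have := srange i; omega)

theorem ta_Lb (i : Fin 24) : rep (ta i) • Lb i = Lt i := by
  unfold Lb Lt gi; rw [smul_axis, ← map_inv, ← map_mul, ← map_mul]; congr 2; group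
theorem tb_Lb (i : Fin 24) : rep (tb i) • Lb i = Lt i := by
  unfold Lb Lt gi; rw [smul_axis, ← map_inv, ← map_mul, ← map_mul]; congr 2; group
theorem ta_Lt (i : Fin 24) : (rep (ta i))⁻¹ • Lt i = Lb i := by
  rw [← ta_Lb, inv_smul_smul]
theorem tb_Lt (i : Fin 24) : (rep (tb i))⁻¹ • Lt i = Lb i := by
  rw [← tb_Lb, inv_smul_smul]

/-- all strands of the `i`-th curve in the strip -/
def Str (i : Fin 24) : Set (Set ℍ) :=
  {L | ∃ n : ℤ, L = Am ^ (48 * n) • Lt i ∨ L = Am ^ (48 * n) • Lb i}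

theorem T_shift (k k' n : ℤ) : T (k + 48 * n) (k' + 48 * n) = gA ^ (48 * n) * T k k' * (gA ^ (48 * n))⁻¹ := by
  unfold T
  rw [zpow_add, neg_add, zpow_add]
  group

theorem T_shift_mem {k k' : ℤ} (h : T k k' ∈ G) (n : ℤ) : T (k + 48 * n) (k' + 48 * n) ∈ G := by
  rw [T_shift]
  exact G.mul_mem (G.mul_mem (A_mem.2 ⟨n, rfl⟩) h) (G.inv_mem (A_mem.2 ⟨n, rfl⟩))

theorem rep_T_shift_inv (k k' n : ℤ) (L : Set ℍ) :
    (rep (T (k + 48 * n) (k' + 48 * n)))⁻¹ • (Am ^ (48 * n) • L) = Am ^ (48 * n) • ((rep (T k k'))⁻¹ • L) := by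
  rw [T_shift, map_mul, map_mul, map_inv, rep_gA_zpow, smul_smul, smul_smul]
  congr 1; group

theorem rep_T_shift (k k' n : ℤ) (L : Set ℍ) :
    rep (T (k + 48 * n) (k' + 48 * n)) • (Am ^ (48 * n) • L) = Am ^ (48 * n) • (rep (T k k') • L) := by
  rw [T_shift, map_mul, map_mul, map_inv, rep_gA_zpow, smul_smul, smul_smul]
  congr 1; group

theorem Str_top (i : Fin 24) (n : ℤ) : TopS (sa i + 48 * n) (sb i + 48 * n) (Am ^ (48 * n) • Lt i) :=
  TopS_A _ (Lt_top i)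
theorem Str_bot (i : Fin 24) (n : ℤ) : BotS (sa' i + 48 * n) (sb' i + 48 * n) (Am ^ (48 * n) • Lb i) :=
  BotS_A _ (Lb_bot i)

theorem Str_top_lt (i : Fin 24) (n : ℤ) : sa i + 48 * n < sb i + 48 * n := by have := srange i; omega
theorem Str_bot_lt (i : Fin 24) (n : ℤ) : sa' i + 48 * n < sb' i + 48 * n := by have := srange i; omega

theorem Str_good (i : Fin 24) : Good (Str i) := by
  constructor
  · rintro L ⟨n, rfl | rfl⟩ k z hz hX
    · rcases (TopS_X (Str_top_lt i n) (Str_top i n) hz hX).2 with rfl | rfl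
      · exact ⟨_, T_shift_mem (ta_mem i) n, n, Or.inr (by rw [rep_T_shift_inv]; exact congrArg _ (ta_Lt i))⟩
      · exact ⟨_, T_shift_mem (tb_mem i) n, n, Or.inr (by rw [rep_T_shift_inv]; exact congrArg _ (tb_Lt i))⟩
    · exact absurd (BotS_X (Str_bot_lt i n) (Str_bot i n) hz hX).1 (by decide)
  · rintro L ⟨n, rfl | rfl⟩ k z hz hX
    · exact absurd (TopS_X (Str_top_lt i n) (Str_top i n) hz hX).1 (by decide)
    · rcases (BotS_X (Str_bot_lt i n) (Str_bot i n) hz hX).2 with rfl | rfl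
      · exact ⟨_, T_shift_mem (ta_mem i) n, n, Or.inl (by rw [rep_T_shift]; exact congrArg _ (ta_Lb i))⟩
      · exact ⟨_, T_shift_mem (tb_mem i) n, n, Or.inl (by rw [rep_T_shift]; exact congrArg _ (tb_Lb i))⟩

theorem inter_shift {p r p' r' m : ℤ} : inter (p + m) (r + m) (p' + m) (r' + m) ↔ inter p r p' r' := by
  unfold inter; constructor <;> intro h <;> omega

/-- crossing top strands -/
theorem Str_meet_top {i j : Fin 24} {n m : ℤ} (hij : i ≠ j ∨ n ≠ m) {z : ℍ} (h1 : z ∈ Am ^ (48 * n) • Lt i)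
    (h2 : z ∈ Am ^ (48 * m) • Lt j) : I true i j (m - n) := by
  have := TopS_meet (Str_top_lt i n) (Str_top_lt j m) (Str_top i n) (Str_top j m) ?_ ?_ ?_ ?_ h1 h2
  · change inter _ _ _ _
    rw [show sa i + 48 * n = sa i + 48 * n by rfl] at this
    have e := (inter_shift (p := sa i) (r := sb i) (p' := sa j + 48 * (m - n)) (r' := sb j + 48 * (m - n))
      (m := 48 * n)).1 ?_
    · exact e
    · rw [show sa j + 48 * (m - n) + 48 * n = sa j + 48 * m by ring,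
        show sb j + 48 * (m - n) + 48 * n = sb j + 48 * m by ring]
      exact this
  · intro h
    obtain ⟨a, b⟩ := saa (i := i) (j := j) (n := m - n) (by linarith)
    rcases hij with h | h
    · exact h a
    · omega
  · intro h; exact sab (i := i) (j := j) (n := m - n) (by linarith)
  · intro h; exact sab (i := j) (j := i) (n := n - m) (by linarith)
  · intro h
    obtain ⟨a, b⟩ := sbb (i := i) (j := j) (n := m - n) (by linarith)
    rcases hij with h | h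
    · exact h a
    · omega

/-- crossing bottom strands -/
theorem Str_meet_bot {i j : Fin 24} {n m : ℤ} (hij : i ≠ j ∨ n ≠ m) {z : ℍ} (h1 : z ∈ Am ^ (48 * n) • Lb i)
    (h2 : z ∈ Am ^ (48 * m) • Lb j) : I false i j (m - n) := by
  have := BotS_meet (Str_bot_lt i n) (Str_bot_lt j m) (Str_bot i n) (Str_bot j m) ?_ ?_ ?_ ?_ h1 h2
  · change inter _ _ _ _
    have e := (inter_shift (p := sa' i) (r := sb' i) (p' := sa' j + 48 * (m - n)) (r' := sb' j + 48 * (m - n))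
      (m := 48 * n)).1 ?_
    · exact e
    · rw [show sa' j + 48 * (m - n) + 48 * n = sa' j + 48 * m by ring,
        show sb' j + 48 * (m - n) + 48 * n = sb' j + 48 * m by ring]
      exact this
  · intro h
    obtain ⟨a, b⟩ := saa' (i := i) (j := j) (n := m - n) (by linarith)
    rcases hij with h | h
    · exact h a
    · omega
  · intro h; exact sab' (i := i) (j := j) (n := m - n) (by linarith)
  · intro h; exact sab' (i := j) (j := i) (n := n - m) (by linarith)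
  · intro h
    obtain ⟨a, b⟩ := sbb' (i := i) (j := j) (n := m - n) (by linarith)
    rcases hij with h | h
    · exact h a
    · omega

theorem Str_fam (i : Fin 24) : Fam (Str i) where
  good := Str_good i
  acl := by
    rintro L ⟨m, rfl | rfl⟩ n
    · exact ⟨n + m, Or.inl (by rw [smul_smul, ← zpow_add]; congr 2; ring)⟩
    · exact ⟨n + m, Or.inr (by rw [smul_smul, ← zpow_add]; congr 2; ring)⟩
  sep := by
    rintro M ⟨n, rfl | rfl⟩ N ⟨m, rfl | rfl⟩ z h1 h2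
    · by_cases hnm : n = m
      · rw [hnm]
      · exact absurd (Str_meet_top (Or.inr hnm) h1 h2) I_self
    · have := TopS_re (Str_top_lt i n) (Str_top i n) h1
      have := BotS_re (Str_bot_lt i m) (Str_bot i m) h2
      linarith
    · have := BotS_re (Str_bot_lt i n) (Str_bot i n) h1
      have := TopS_re (Str_top_lt i m) (Str_top i m) h2
      linarith
    · by_cases hnm : n = m
      · rw [hnm]
      · exact absurd (Str_meet_bot (Or.inr hnm) h1 h2) I_self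

theorem Lt_mem (i : Fin 24) : Lt i ∈ Str i := ⟨0, Or.inl (by simp)⟩
theorem Lb_mem (i : Fin 24) : Lb i ∈ Str i := ⟨0, Or.inr (by simp)⟩

/-- The curves. -/
def cur (i : Fin 24) : Set (Surf GR) := proj GR '' Lt i

theorem proj_smul {k : SL(2, ℝ)} (hk : k ∈ GR) (z : ℍ) : proj GR (k • z) = proj GR z :=
  proj_eq_iff.2 ⟨k, hk, rfl⟩

theorem proj_image_smul {k : SL(2, ℝ)} (hk : k ∈ GR) (L : Set ℍ) : proj GR '' (k • L) = proj GR '' L := by
  ext s
  constructor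
  · rintro ⟨_, ⟨x, hx, rfl⟩, rfl⟩
    exact ⟨x, hx, (proj_smul hk x).symm⟩
  · rintro ⟨x, hx, rfl⟩
    exact ⟨k • x, Set.smul_mem_smul_set hx, proj_smul hk x⟩

theorem proj_Str {i : Fin 24} {L : Set ℍ} (hL : L ∈ Str i) : proj GR '' L = cur i := by
  rcases hL with ⟨n, rfl | rfl⟩
  · rw [proj_image_smul (a_mem n)]; rfl
  · rw [proj_image_smul (a_mem n), ← ta_Lt, proj_image_smul (GR.inv_mem (rep_mem_GR (ta_mem i)))]; rfl

theorem cur_isCurve (hex : Exh) (i : Fin 24) : IsCurve GR (cur i) :=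
  ⟨rep (gi i), rep_mem_GR (gi_mem i), gi_hyp i, rfl, (Str_fam i).simple hex (Lt_mem i)⟩

theorem Str_cases {i : Fin 24} {M : Set ℍ} (hM : M ∈ Str i) {z : ℍ} (hz : z ∈ M) :
    (∃ n : ℤ, z ∈ Am ^ (48 * n) • Lt i ∧ 0 < z.re) ∨ (∃ n : ℤ, z ∈ Am ^ (48 * n) • Lb i ∧ z.re < 0) := by
  rcases hM with ⟨n, rfl | rfl⟩
  · exact Or.inl ⟨n, hz, TopS_re (Str_top_lt i n) (Str_top i n) hz⟩
  · exact Or.inr ⟨n, hz, BotS_re (Str_bot_lt i n) (Str_bot i n) hz⟩

theorem top_shift_mem {i : Fin 24} {n k : ℤ} {z : ℍ} (h : z ∈ Am ^ (48 * n) • Lt i) :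
    Am ^ (48 * k) • z ∈ Am ^ (48 * (n + k)) • Lt i := by
  have : Am ^ (48 * (n + k)) • Lt i = Am ^ (48 * k) • (Am ^ (48 * n) • Lt i) := by
    rw [smul_smul, ← zpow_add]; congr 2; ring
  rw [this]; exact Set.smul_mem_smul_set h

theorem bot_shift_mem {i : Fin 24} {n k : ℤ} {z : ℍ} (h : z ∈ Am ^ (48 * n) • Lb i) :
    Am ^ (48 * k) • z ∈ Am ^ (48 * (n + k)) • Lb i := by
  have : Am ^ (48 * (n + k)) • Lb i = Am ^ (48 * k) • (Am ^ (48 * n) • Lb i) := by
    rw [smul_smul, ← zpow_add]; congr 2; ring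
  rw [this]; exact Set.smul_mem_smul_set h

theorem cur_inter (hex : Exh) {i j : Fin 24} (hij : i ≠ j) : (cur i ∩ cur j).encard ≤ 1 := by
  apply Fam.encard_le hex (Str_fam i) (Str_fam j) (Lt_mem i) (Lt_mem j)
  intro z hz w hw M1 hM1 M2 hM2 N1 hN1 N2 hN2 a b c d
  rcases Str_cases hM1 a with ⟨n1, a, ra⟩ | ⟨n1, a, ra⟩ <;>
  rcases Str_cases hM2 b with ⟨m1, b, rb⟩ | ⟨m1, b, rb⟩ <;>
  rcases Str_cases hN1 c with ⟨n2, c, rc⟩ | ⟨n2, c, rc⟩ <;>
  rcases Str_cases hN2 d with ⟨m2, d, rd⟩ | ⟨m2, d, rd⟩ <;>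
  try (exfalso; linarith)
  · have e1 := Str_meet_top (Or.inl hij) a b
    have e2 := Str_meet_top (Or.inl hij) c d
    have e3 := (I_unique hij e1 e2).2
    have a' := top_shift_mem (k := n2 - n1) a
    have b' := top_shift_mem (k := n2 - n1) b
    rw [show n1 + (n2 - n1) = n2 by ring] at a'
    rw [show m1 + (n2 - n1) = m2 by linarith] at b'
    refine ⟨n2 - n1, TopS_unique (Str_top i n2) (Str_top j m2) ?_ a' b' c d⟩
    change inter _ _ _ _ at e2
    have e := (inter_shift (p := sa i) (r := sb i) (p' := sa j + 48 * (m2 - n2)) (r' := sb j + 48 * (m2 - n2))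
      (m := 48 * n2)).2 e2
    rwa [show sa j + 48 * (m2 - n2) + 48 * n2 = sa j + 48 * m2 by ring,
      show sb j + 48 * (m2 - n2) + 48 * n2 = sb j + 48 * m2 by ring] at e
  · exact absurd (I_unique hij (Str_meet_top (Or.inl hij) a b) (Str_meet_bot (Or.inl hij) c d)).1 (by decide)
  · exact absurd (I_unique hij (Str_meet_bot (Or.inl hij) a b) (Str_meet_top (Or.inl hij) c d)).1 (by decide)
  · have e1 := Str_meet_bot (Or.inl hij) a b
    have e2 := Str_meet_bot (Or.inl hij) c d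
    have e3 := (I_unique hij e1 e2).2
    have a' := bot_shift_mem (k := n2 - n1) a
    have b' := bot_shift_mem (k := n2 - n1) b
    rw [show n1 + (n2 - n1) = n2 by ring] at a'
    rw [show m1 + (n2 - n1) = m2 by linarith] at b'
    refine ⟨n2 - n1, BotS_unique (Str_bot i n2) (Str_bot j m2) ?_ a' b' c d⟩
    change inter _ _ _ _ at e2
    have e := (inter_shift (p := sa' i) (r := sb' i) (p' := sa' j + 48 * (m2 - n2)) (r' := sb' j + 48 * (m2 - n2))
      (m := 48 * n2)).2 e2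
    rwa [show sa' j + 48 * (m2 - n2) + 48 * n2 = sa' j + 48 * m2 by ring,
      show sb' j + 48 * (m2 - n2) + 48 * n2 = sb' j + 48 * m2 by ring] at e

end

end Pool.Agent.Run7.h775.OneSys
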