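import Pool.Agent.Run7.h775.OneSys.Basic

set_option linter.unusedSimpArgs false

open UpperHalfPlane MatrixGroups Pointwise goldenRatio

namespace Pool.Agent.Run7.h775.OneSys

noncomputable section

/-- the golden ratio -/
def ph : ℝ := φ

theorem phsq : ph ^ 2 = ph + 1 := Real.goldenRatio_sq
theorem ph1 : 1 < ph := Real.one_lt_goldenRatio
theorem ph2 : ph < 2 := Real.goldenRatio_lt_two
theorem ph_lt : ph < 17 / 10 := by nlinarith [phsq, ph1]
theorem ph_gt : 8 / 5 < ph := by nlinarith [phsq, ph1]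

/-- The hyperbolic matrix `A = diag(φ², φ⁻²)`. -/
def Am : SL(2, ℝ) := ⟨!![ph + 1, 0; 0, 2 - ph], by
  rw [Matrix.det_fin_two]; simp; linear_combination -phsq⟩

/-- The hyperbolic matrix `B`. -/
def Bm : SL(2, ℝ) := ⟨!![(3 * ph + 6) / 5, (4 * ph - 2) / 5; (4 * ph - 2) / 5, (9 - 3 * ph) / 5], by
  rw [Matrix.det_fin_two]; simp; linear_combination -phsq⟩

/-- Representation of the free group of rank two; `true ↦ A`, `false ↦ B`. -/
def rep : FreeGroup Bool →* SL(2, ℝ) := FreeGroup.lift (fun b => if b then Am else Bm)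

abbrev gA : FreeGroup Bool := FreeGroup.of true
abbrev gB : FreeGroup Bool := FreeGroup.of false

theorem rep_A : rep gA = Am := by simp [rep, gA]
theorem rep_B : rep gB = Bm := by simp [rep, gB]

/-- the multiplier `φ⁴`. -/
def mu : ℝ := 3 * ph + 2

theorem mu_gt : 6 < mu := by unfold mu; nlinarith [ph_gt]
theorem mu_pos : 0 < mu := by linarith [mu_gt]
theorem mu_one : 1 < mu := by linarith [mu_gt]

theorem Am_re (z : ℍ) : (Am • z).re = mu * z.re := by
  have h := re_smul_eq Am z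
  have h00 : Am 0 0 = ph + 1 := rfl
  have h01 : Am 0 1 = 0 := rfl
  have h10 : Am 1 0 = 0 := rfl
  have h11 : Am 1 1 = 2 - ph := rfl
  rw [h00, h01, h10, h11] at h
  have e : (ph + 1) * (2 - ph) = 1 := by linear_combination -phsq
  have e2 : mu = (ph + 1) ^ 2 := by unfold mu; linear_combination -phsq
  have h' : (Am • z).re * (2 - ph) ^ 2 = (ph + 1) * (2 - ph) * z.re := by linear_combination h
  rw [e, one_mul] at h'
  calc (Am • z).re = (Am • z).re * ((ph + 1) * (2 - ph)) ^ 2 := by rw [e]; ring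
    _ = (ph + 1) ^ 2 * ((Am • z).re * (2 - ph) ^ 2) := by ring
    _ = mu * z.re := by rw [h', e2]

theorem Am_im (z : ℍ) : (Am • z).im = mu * z.im := by
  have h := im_smul_eq Am z
  have h10 : Am 1 0 = 0 := rfl
  have h11 : Am 1 1 = 2 - ph := rfl
  rw [h10, h11] at h
  have e : (ph + 1) * (2 - ph) = 1 := by linear_combination -phsq
  have e2 : mu = (ph + 1) ^ 2 := by unfold mu; linear_combination -phsq
  have h' : (Am • z).im * (2 - ph) ^ 2 = z.im := by linear_combination h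
  calc (Am • z).im = (Am • z).im * ((ph + 1) * (2 - ph)) ^ 2 := by rw [e]; ring
    _ = (ph + 1) ^ 2 * ((Am • z).im * (2 - ph) ^ 2) := by ring
    _ = mu * z.im := by rw [h', e2]

theorem Am_zpow (k : ℤ) (z : ℍ) :
    (Am ^ k • z).re = mu ^ k * z.re ∧ (Am ^ k • z).im = mu ^ k * z.im := by
  have hmu := mu_pos.ne'
  induction k using Int.induction_on generalizing z with
  | zero => simp
  | succ n ih =>
    have : Am ^ ((n : ℤ) + 1) • z = Am • (Am ^ (n : ℤ) • z) := by
      rw [smul_smul, ← zpow_one_add, add_comm]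
    rw [this, Am_re, Am_im, (ih z).1, (ih z).2, zpow_add₀ hmu, zpow_one]
    constructor <;> ring
  | pred n ih =>
    have e : Am ^ (-(n : ℤ)) • z = Am • (Am ^ (-(n : ℤ) - 1) • z) := by
      rw [smul_smul, ← zpow_one_add]; congr 2; ring
    have h1 := (ih z).1
    have h2 := (ih z).2
    rw [e, Am_re] at h1
    rw [e, Am_im] at h2
    rw [zpow_sub₀ hmu, zpow_one]
    constructor
    · field_simp; linarith
    · field_simp; linarith

/-- top vertices `φ^{4k-1}`, all positive -/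
def tv (k : ℤ) : ℝ := (ph - 1) * mu ^ k
/-- bottom vertices `-φ^{4k-3}`, all negative -/
def bv (k : ℤ) : ℝ := (3 - 2 * ph) * mu ^ k

theorem tv_pos (k : ℤ) : 0 < tv k := mul_pos (by linarith [ph1]) (zpow_pos mu_pos k)
theorem bv_neg (k : ℤ) : bv k < 0 := mul_neg_of_neg_of_pos (by linarith [ph_gt]) (zpow_pos mu_pos k)

theorem tv_mono {j k : ℤ} (h : j < k) : tv j < tv k :=
  mul_lt_mul_of_pos_left (zpow_lt_zpow_right₀ mu_one h) (by linarith [ph1])
theorem tv_mono' {j k : ℤ} (h : j ≤ k) : tv j ≤ tv k :=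
  mul_le_mul_of_nonneg_left (zpow_le_zpow_right₀ mu_one.le h) (by linarith [ph1])
theorem bv_anti {j k : ℤ} (h : j < k) : bv k < bv j :=
  mul_lt_mul_of_neg_left (zpow_lt_zpow_right₀ mu_one h) (by linarith [ph_gt])
theorem bv_anti' {j k : ℤ} (h : j ≤ k) : bv k ≤ bv j :=
  mul_le_mul_of_nonpos_left (zpow_le_zpow_right₀ mu_one.le h) (by linarith [ph_gt])

/-- form of the `k`-th top half plane (negative inside) -/
def qt (k : ℤ) (z : ℍ) : ℝ := q (tv k) (tv (k + 1)) z
/-- form of the `k`-th bottom half plane (negative inside) -/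
def qb (k : ℤ) (z : ℍ) : ℝ := q (bv (k + 1)) (bv k) z

/-- The strip with the top edges included. -/
def Wp : Set ℍ := {z | (∀ k, 0 ≤ qt k z) ∧ ∀ k, 0 < qb k z}

theorem qt_A (m k : ℤ) (z : ℍ) : qt (k + m) (Am ^ m • z) = (mu ^ m) ^ 2 * qt k z := by
  have hmu := mu_pos.ne'
  obtain ⟨h1, h2⟩ := Am_zpow m z
  unfold qt q tv
  rw [h1, h2, show k + m + 1 = (k + 1) + m by ring, zpow_add₀ hmu, zpow_add₀ hmu (k + 1)]
  ring

theorem qb_A (m k : ℤ) (z : ℍ) : qb (k + m) (Am ^ m • z) = (mu ^ m) ^ 2 * qb k z := by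
  have hmu := mu_pos.ne'
  obtain ⟨h1, h2⟩ := Am_zpow m z
  unfold qb q bv
  rw [h1, h2, show k + m + 1 = (k + 1) + m by ring, zpow_add₀ hmu (k + 1), zpow_add₀ hmu k m]
  ring

theorem Wp_A (m : ℤ) {z : ℍ} (hz : z ∈ Wp) : Am ^ m • z ∈ Wp := by
  have hp : 0 < (mu ^ m) ^ 2 := by have := zpow_pos mu_pos m; positivity
  constructor
  · intro k
    have := qt_A m (k - m) z
    rw [sub_add_cancel] at this
    rw [this]
    exact mul_nonneg hp.le (hz.1 _)
  · intro k
    have := qb_A m (k - m) z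
    rw [sub_add_cancel] at this
    rw [this]
    exact mul_pos hp (hz.2 _)

theorem tv0 : tv 0 = ph - 1 := by simp [tv]
theorem tv1 : tv 1 = 2 * ph + 1 := by simp [tv, mu]; linear_combination 3 * phsq
theorem bv0 : bv 0 = 3 - 2 * ph := by simp [bv]
theorem bv1 : bv 1 = -ph := by simp [bv, mu]; linear_combination (-6) * phsq

theorem qt_B (z : ℍ) : qt 0 (Bm • z) * ((Bm 1 0 * z.re + Bm 1 1) ^ 2 + (Bm 1 0 * z.im) ^ 2) =
    -(ph + 1) * qb 0 z := by
  have h0 := nsq_smul_eq Bm z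
  have h1 := re_smul_eq Bm z
  set D := (Bm 1 0 * z.re + Bm 1 1) ^ 2 + (Bm 1 0 * z.im) ^ 2 with hD
  have e : qt 0 (Bm • z) * D = ((Bm • z).re ^ 2 + (Bm • z).im ^ 2) * D
      - (tv 0 + tv 1) * ((Bm • z).re * D) + tv 0 * tv 1 * D := by
    unfold qt q; simp only [zero_add]; ring
  rw [e, h0, h1, hD]
  have b00 : Bm 0 0 = (3 * ph + 6) / 5 := rfl
  have b01 : Bm 0 1 = (4 * ph - 2) / 5 := rfl
  have b10 : Bm 1 0 = (4 * ph - 2) / 5 := rfl
  have b11 : Bm 1 1 = (9 - 3 * ph) / 5 := rfl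
  unfold qb q
  simp only [zero_add]
  rw [b00, b01, b10, b11, tv0, tv1, bv0, bv1]
  have h3 : ph ^ 3 = 2 * ph + 1 := by linear_combination (ph + 1) * phsq
  have h4 : ph ^ 4 = 3 * ph + 2 := by linear_combination (ph ^ 2 + ph + 2) * phsq
  ring_nf
  simp only [h4, h3, phsq]
  ring

end

end Pool.Agent.Run7.h775.OneSys
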