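import Pool.Agent.Run7.h775.OneSys.Core

set_option linter.unusedSimpArgs false
set_option maxHeartbeats 1000000

open UpperHalfPlane MatrixGroups Pointwise

namespace Pool.Agent.Run7.h775.OneSys

noncomputable section

theorem ph_irr {a b : ℤ} (h : (a : ℝ) + b * ph = 0) : a = 0 ∧ b = 0 := by
  have hb : b = 0 := by
    by_contra hb
    have hirr : Irrational ph := Real.goldenRatio_irrational
    apply hirr
    refine ⟨-(a : ℚ) / b, ?_⟩
    have hb' : (b : ℝ) ≠ 0 := by exact_mod_cast hb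
    push_cast
    rw [div_eq_iff hb']
    linarith
  subst hb
  simp at h
  exact ⟨h, rfl⟩

/-- an element of the group fixing `∞` fixes `0` -/
theorem Pres_c {g : SL(2, ℝ)} (hg : Pres g) (hc : g 1 0 = 0) : g 0 1 = 0 := by
  obtain ⟨m0, n0, a0, b0⟩ := hg 1 0
  obtain ⟨m1, n1, a1, b1⟩ := hg 0 1
  push_cast at a0 b0 a1 b1
  rw [hc] at b0 b1
  have e : ((m1 + n1 - m0 : ℤ) : ℝ) * ph + ((m1 - n0 : ℤ) : ℝ) = 0 := by
    push_cast; linear_combination b0 - ph * b1 - (m1 : ℝ) * phsq
  obtain ⟨h1, h2⟩ := ph_irr (a := m1 - n0) (b := m1 + n1 - m0) (by linarith)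
  have h1' : (n0 : ℝ) = m1 := by exact_mod_cast (by omega : n0 = m1)
  have h2' : (m0 : ℝ) = m1 + n1 := by exact_mod_cast (by omega : m0 = m1 + n1)
  rw [h1', h2'] at a0
  have : g 0 1 * (1 + ph ^ 2) = 0 := by
    linear_combination ph * a0 + a1 + (m1 : ℝ) * (-phsq)
  rcases mul_eq_zero.1 this with h | h
  · exact h
  · exfalso; have := sq_nonneg ph; linarith

/-- an element of the group fixing `0` fixes `∞` -/
theorem Pres_b {g : SL(2, ℝ)} (hg : Pres g) (hb : g 0 1 = 0) : g 1 0 = 0 := by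
  obtain ⟨m0, n0, a0, b0⟩ := hg 1 0
  obtain ⟨m1, n1, a1, b1⟩ := hg 0 1
  push_cast at a0 b0 a1 b1
  rw [hb] at a0 a1
  have e : ((n0 - m0 + n1 : ℤ) : ℝ) * ph + ((n0 - m1 : ℤ) : ℝ) = 0 := by
    push_cast; linear_combination ph * a0 + a1 - (n0 : ℝ) * phsq
  obtain ⟨h1, h2⟩ := ph_irr (a := n0 - m1) (b := n0 - m0 + n1) (by linarith)
  have h1' : (m1 : ℝ) = n0 := by exact_mod_cast (by omega : m1 = n0)
  have h2' : (n1 : ℝ) = m0 - n0 := by exact_mod_cast (by omega : n1 = m0 - n0)
  rw [h1', h2'] at b1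
  have : g 1 0 * (1 + ph ^ 2) = 0 := by
    linear_combination b0 - ph * b1 + (-(n0 : ℝ)) * phsq
  rcases mul_eq_zero.1 this with h | h
  · exact h
  · exfalso; have := sq_nonneg ph; linarith

/-- A hyperbolic axis disjoint from `La` and having a point to the right of `La` has two positive endpoints. -/
theorem right_geo {w : FreeGroup Bool} (hh : IsHyp (rep w)) (hd : Disjoint (axis (rep w)) La) {z : ℍ}
    (hz : z ∈ axis (rep w)) (hzr : 0 < z.re) : ∃ x y, 0 < x ∧ x < y ∧ axis (rep w) = geo x y := by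
  set g := rep w with hg
  have hP := Pres_rep w
  rw [← hg] at hP
  have hdet := det_eq g
  have hF : g 1 0 * (z.re ^ 2 + z.im ^ 2) + (g 1 1 - g 0 0) * z.re - g 0 1 = 0 := hz
  have him := z.im_pos
  -- c ≠ 0, b ≠ 0
  have hcb : ¬ (g 1 0 = 0 ∧ g 0 1 = 0) := by
    rintro ⟨hc, hb⟩
    rw [hc, hb] at hF
    have : (g 1 1 - g 0 0) * z.re = 0 := by linarith
    rcases mul_eq_zero.1 this with h | h
    · have e1 : g 1 1 = g 0 0 := by linarith
      rw [hb, e1, zero_mul, sub_zero] at hdet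
      unfold IsHyp at hh
      rw [e1] at hh
      rcases mul_self_eq_one_iff.1 hdet with h | h
      · rw [h] at hh; norm_num at hh
      · rw [h] at hh; norm_num at hh
    · linarith
  have hc : g 1 0 ≠ 0 := fun h => hcb ⟨h, Pres_c hP h⟩
  have hb : g 0 1 ≠ 0 := fun h => hcb ⟨Pres_b hP h, h⟩
  -- b / c < 0
  have hbc : g 0 1 / g 1 0 < 0 := by
    by_contra h
    push Not at h
    have hpos : 0 < g 0 1 / g 1 0 := lt_of_le_of_ne h (Ne.symm (div_ne_zero hb hc))
    rw [Set.disjoint_left] at hd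
    let v : ℍ := ⟨⟨0, Real.sqrt (g 0 1 / g 1 0)⟩, Real.sqrt_pos.2 hpos⟩
    apply hd (a := v)
    · change g 1 0 * ((0 : ℝ) ^ 2 + Real.sqrt (g 0 1 / g 1 0) ^ 2) + (g 1 1 - g 0 0) * 0 - g 0 1 = 0
      rw [Real.sq_sqrt hpos.le]
      field_simp
      ring
    · rfl
  set s := (g 1 1 - g 0 0) / g 1 0 with hs
  set β := -(g 0 1 / g 1 0) with hβ
  have hβpos : 0 < β := by rw [hβ]; linarith
  have hs' : g 1 1 - g 0 0 = g 1 0 * s := by rw [hs]; field_simp
  have hb' : g 0 1 = -(g 1 0 * β) := by rw [hβ]; field_simp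
  have hq : z.re ^ 2 + z.im ^ 2 + s * z.re + β = 0 := by
    have : g 1 0 * (z.re ^ 2 + z.im ^ 2 + s * z.re + β) = 0 := by
      rw [hs', hb'] at hF; linarith
    exact (mul_eq_zero.1 this).resolve_left hc
  have hsneg : s < 0 := by
    by_contra h
    push Not at h
    nlinarith [sq_nonneg z.re, mul_nonneg h hzr.le]
  have hΔ0 : 0 < s ^ 2 - 4 * β := by
    -- (2 re + s)^2 + 4 im^2 = s^2 - 4β
    have : s ^ 2 - 4 * β = (2 * z.re + s) ^ 2 + 4 * z.im ^ 2 := by linear_combination (-4) * hq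
    rw [this]; positivity
  set Δ := Real.sqrt (s ^ 2 - 4 * β) with hΔ
  have hΔsq : Δ ^ 2 = s ^ 2 - 4 * β := Real.sq_sqrt hΔ0.le
  have hΔpos : 0 < Δ := Real.sqrt_pos.2 hΔ0
  have hΔs : Δ < -s := by
    rw [hΔ]
    apply (Real.sqrt_lt' (by linarith)).2
    nlinarith
  have hPt : ∀ t, P g t = g 1 0 * (t ^ 2 + s * t + β) := by
    intro t; unfold P; rw [hs', hb']; ring
  have hPx : P g ((-s - Δ) / 2) = 0 := by
    rw [hPt]
    have : ((-s - Δ) / 2) ^ 2 + s * ((-s - Δ) / 2) + β = 0 := by linear_combination (1 / 4) * hΔsq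
    rw [this, mul_zero]
  have hPy : P g ((-s + Δ) / 2) = 0 := by
    rw [hPt]
    have : ((-s + Δ) / 2) ^ 2 + s * ((-s + Δ) / 2) + β = 0 := by linear_combination (1 / 4) * hΔsq
    rw [this, mul_zero]
  have hP0 : P g 0 ≠ 0 := by
    rw [hPt]
    refine mul_ne_zero hc ?_
    have : (0 : ℝ) ^ 2 + s * 0 + β = β := by ring
    rw [this]; exact hβpos.ne'
  refine ⟨(-s - Δ) / 2, (-s + Δ) / 2, by linarith, by linarith, ?_⟩
  exact (axis_of_roots (by linarith : (-s - Δ) / 2 ≠ (-s + Δ) / 2) hPx hPy hP0).1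

/-- A simple geodesic with positive endpoints does not come close to `La`. -/
theorem far {x y : ℝ} (hx : 0 < x) (hxy : x < y)
    (hs : Am ^ (48 : ℤ) • geo x y = geo x y ∨ Disjoint (Am ^ (48 : ℤ) • geo x y) (geo x y)) {z : ℍ}
    (hz : z ∈ geo x y) : z.re ^ 2 + z.im ^ 2 < (1 + mu ^ (48 : ℤ)) ^ 2 * z.re ^ 2 := by
  set l := mu ^ (48 : ℤ) with hl
  have hl1 : 1 < l := one_lt_zpow₀ mu_one (by norm_num)
  have hyl : y ≤ l * x := by
    by_contra h
    push Not at h
    have h1 : x < l * x := by nlinarith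
    have h2 : y < l * y := by nlinarith
    obtain ⟨v, hv1, hv2⟩ := geo_cross h1 h h2
    rw [mem_smul_geo, ← hl] at hs
    rcases hs with hs | hs
    · -- equal
      have e1 : v = z := by
        refine geo_unique (x := x) (y := y) (u := l * x) (v := l * y) ?_ hv1 hv2 hz (by rw [hs]; exact hz)
        have : (x + y) < l * x + l * y := by nlinarith
        exact this.ne
      have hz2 : Am ^ (48 : ℤ) • z ∈ geo (l * x) (l * y) := by
        rw [hl, ← mem_smul_geo]; exact Set.smul_mem_smul_set hz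
      have e2 : Am ^ (48 : ℤ) • z = z := by
        refine geo_unique (x := x) (y := y) (u := l * x) (v := l * y) ?_ (by rw [hs] at hz2; exact hz2) hz2 hz
          (by rw [hs]; exact hz)
        have : (x + y) < l * x + l * y := by nlinarith
        exact this.ne
      exact absurd (Am_free e2) (by norm_num)
    · exact Set.disjoint_left.1 hs hv2 hv1
  have e := geo_re hz
  obtain ⟨g1, g2⟩ := geo_between hxy hz
  have hzp : 0 < z.re := by linarith
  rw [e]
  -- (x+y) re - xy < (1+l)^2 re^2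
  have h2 : (x + y) * z.re ≤ (1 + l) * x * z.re := by nlinarith
  have h3 : (1 + l) * x * z.re < (1 + l) * z.re * z.re := by
    have h5 : 0 < (1 + l) * z.re := mul_pos (by linarith) hzp
    have := mul_lt_mul_of_pos_left g1 h5
    linarith
  have h4 : (1 + l) * z.re * z.re < (1 + l) ^ 2 * z.re ^ 2 := by
    have : 0 < z.re ^ 2 := by positivity
    nlinarith
  nlinarith [mul_pos hx (by linarith : (0 : ℝ) < y)]

/-- No 1-system containing the 25 curves fills. -/
theorem not_fills (hex : Exh) {Γ : Set (Set (Surf GR))} (hΓ : IsOneSystem GR Γ) (h0 : Γ0 ⊆ Γ) :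
    ¬ Fills GR Γ := by
  intro hF
  have hA : Am ^ (48 : ℤ) ∈ GR := by simpa using a_mem 1
  set l := mu ^ (48 : ℤ) with hl
  have hl1 : 1 < l := one_lt_zpow₀ mu_one (by norm_num)
  -- points far to the right are not on lifts
  have key : ∀ z : ℍ, 0 < z.re → z.re ^ 2 + z.im ^ 2 = (1 + l) ^ 2 * z.re ^ 2 → proj GR z ∉ ⋃₀ Γ := by
    rintro z hz hz2 ⟨c, hc, hzc⟩
    -- find a lift A of c through z, hyperbolic, simple, disjoint from La
    obtain ⟨w, hw, hyp, hzw, hsim, hdis⟩ : ∃ w ∈ G, IsHyp (rep w) ∧ z ∈ axis (rep w) ∧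
        (∀ k ∈ GR, k • axis (rep w) = axis (rep w) ∨ Disjoint (k • axis (rep w)) (axis (rep w))) ∧
        Disjoint (axis (rep w)) La := by
      obtain ⟨g, hg, hyp, hcg, hsim⟩ := hΓ.1 c hc
      rw [hcg] at hzc
      obtain ⟨x, hx, e⟩ := hzc
      obtain ⟨k, hk, hkx⟩ := proj_eq_iff.1 e.symm
      -- k • x = z
      have hmem : k * g * k⁻¹ ∈ GR := GR.mul_mem (GR.mul_mem hk hg) (GR.inv_mem hk)
      obtain ⟨w, hw, hwe⟩ := hmem
      have hax : axis (rep w) = k • axis g := by rw [hwe, smul_axis]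
      have hsim' : ∀ k' ∈ GR, k' • axis (rep w) = axis (rep w) ∨
          Disjoint (k' • axis (rep w)) (axis (rep w)) := by
        intro k' hk'
        rw [hax]
        rcases hsim (k⁻¹ * k' * k) (GR.mul_mem (GR.mul_mem (GR.inv_mem hk) hk') hk) with h | h
        · left
          calc k' • k • axis g = k • ((k⁻¹ * k' * k) • axis g) := by
                rw [smul_smul, smul_smul]; congr 1; group
            _ = k • axis g := by rw [h]
        · right
          have : k' • k • axis g = k • ((k⁻¹ * k' * k) • axis g) := by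
                rw [smul_smul, smul_smul]; congr 1; group
          rw [this]
          exact Set.disjoint_smul_set.2 h
      refine ⟨w, hw, by rw [hwe]; exact isHyp_conj.2 hyp, by rw [hax, ← hkx]; exact Set.smul_mem_smul_set hx,
        hsim', ?_⟩
      have him : proj GR '' axis (rep w) = c := by rw [hax, proj_image_smul hk, hcg]
      by_cases hcc : c = core
      · -- translate of La
        rw [Set.disjoint_left]
        intro v hv hvLa
        have hneLa : axis (rep w) ≠ La := by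
          intro h
          have hzA : z ∈ axis (rep w) := by rw [hax, ← hkx]; exact Set.smul_mem_smul_set hx
          rw [h] at hzA
          have : z.re = 0 := hzA
          linarith
        obtain ⟨p, r, hmid⟩ := mid_of_cross (by rw [hwe]; exact isHyp_conj.2 hyp) hv hvLa hneLa
        obtain ⟨i, n, n', c1, c2, c3, c4⟩ := cover r p
        obtain ⟨z1, a1, a2, a3⟩ := Mid_Top hmid (Str_top i n) c1 c2
        have m1 : proj GR z1 ∈ core ∩ cur i := by
          refine ⟨?_, ?_⟩
          · rw [← hcc, ← him]; exact ⟨z1, a1, rfl⟩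
          · rw [← proj_Str (i := i) ⟨n, Or.inl rfl⟩]; exact ⟨z1, a2, rfl⟩
        rw [core_cur hex i] at m1
        exact m1
      · have := isolated hex hΓ h0 c hc hcc
        rw [Set.disjoint_left] at this ⊢
        intro v hv hvLa
        exact this (a := proj GR v) (by rw [← him]; exact ⟨v, hv, rfl⟩) ⟨v, hvLa, rfl⟩
    obtain ⟨x, y, hx, hxy, hgeo⟩ := right_geo hyp hdis hzw hz
    have h1 := hsim _ hA
    rw [hgeo] at h1 hzw
    have h2 := far hx hxy h1 hzw
    rw [hz2] at h2
    exact lt_irrefl _ h2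
  have hY0 : 0 < (1 + l) ^ 2 - 1 := by nlinarith
  set Y := Real.sqrt ((1 + l) ^ 2 - 1) with hY
  have hYpos : 0 < Y := Real.sqrt_pos.2 hY0
  have hYsq : Y ^ 2 = (1 + l) ^ 2 - 1 := Real.sq_sqrt hY0.le
  let z0 : ℍ := ⟨⟨1, Y⟩, hYpos⟩
  have hs : ∀ t : unitInterval, 0 < 1 + (t : ℝ) * (l - 1) := by
    intro t
    have := mul_nonneg t.2.1 (by linarith : (0 : ℝ) ≤ l - 1)
    linarith
  let f : unitInterval → ℂ := fun t => ((1 + (t : ℝ) * (l - 1) : ℝ) : ℂ) * ⟨1, Y⟩
  have hfre : ∀ t, (f t).re = 1 + (t : ℝ) * (l - 1) := by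
    intro t; simp [f]
  have hfim : ∀ t, (f t).im = (1 + (t : ℝ) * (l - 1)) * Y := by
    intro t; simp [f]
  have hfpos : ∀ t, 0 < (f t).im := fun t => by rw [hfim]; exact mul_pos (hs t) hYpos
  have hfc : Continuous f := by
    apply Continuous.mul _ continuous_const
    exact Complex.continuous_ofReal.comp (by fun_prop)
  have hA0 : Am ^ (48 : ℤ) • z0 = ⟨f 1, hfpos 1⟩ := by
    obtain ⟨e1, e2⟩ := Am_zpow 48 z0
    apply UpperHalfPlane.ext_re_im
    · rw [e1]
      change mu ^ (48 : ℤ) * 1 = (f 1).re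
      rw [hfre]; simp [hl]
    · rw [e2]
      change mu ^ (48 : ℤ) * Y = (f 1).im
      rw [hfim]; simp [hl]
  refine hF _ hA axis_a.2 z0 ⟨{ toFun := fun t => ⟨f t, hfpos t⟩
                                continuous_toFun := hfc.upperHalfPlaneMk hfpos
                                source' := ?_
                                target' := hA0.symm }, ?_⟩
  · apply UpperHalfPlane.ext_re_im
    · change (f 0).re = 1
      rw [hfre]; simp
    · change (f 0).im = Y
      rw [hfim]; simp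
  · intro t
    change proj GR (⟨f t, hfpos t⟩ : ℍ) ∉ ⋃₀ Γ
    apply key
    · change 0 < (f t).re
      rw [hfre]; exact hs t
    · change (f t).re ^ 2 + (f t).im ^ 2 = (1 + l) ^ 2 * (f t).re ^ 2
      rw [hfre, hfim, mul_pow, hYsq]; ring

end

end Pool.Agent.Run7.h775.OneSys
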