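import Pool.Agent.Run7.h775.OneSys.Group

set_option linter.unusedSimpArgs false

open UpperHalfPlane MatrixGroups Pointwise

namespace Pool.Agent.Run7.h775.OneSys

noncomputable section

/-- The half planes: `(k, true)` the open `k`-th top half plane, `(k, false)` the closed `k`-th bottom one. -/
def X : ℤ × Bool → Set ℍ
  | (k, true) => {z | qt k z < 0}
  | (k, false) => {z | qb k z ≤ 0}

theorem X_true_re {k : ℤ} {z : ℍ} (h : z ∈ X (k, true)) : tv k < z.re ∧ z.re < tv (k + 1) :=
  q_between (tv_mono (by omega)) (le_of_lt h)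

theorem X_false_re {k : ℤ} {z : ℍ} (h : z ∈ X (k, false)) : bv (k + 1) < z.re ∧ z.re < bv k :=
  q_between (bv_anti (by omega)) h

theorem X_disj {p p' : ℤ × Bool} {z : ℍ} (h : z ∈ X p) (h' : z ∈ X p') : p = p' := by
  obtain ⟨k, e⟩ := p
  obtain ⟨k', e'⟩ := p'
  cases e <;> cases e'
  · obtain ⟨h1, h2⟩ := X_false_re h
    obtain ⟨h3, h4⟩ := X_false_re h'
    rcases lt_trichotomy k k' with hk | hk | hk
    · have := bv_anti' (show k + 1 ≤ k' by omega); linarith
    · rw [hk]
    · have := bv_anti' (show k' + 1 ≤ k by omega); linarith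
  · obtain ⟨h1, h2⟩ := X_false_re h
    obtain ⟨h3, h4⟩ := X_true_re h'
    have := bv_neg k; have := tv_pos k'; linarith
  · obtain ⟨h1, h2⟩ := X_true_re h
    obtain ⟨h3, h4⟩ := X_false_re h'
    have := bv_neg k'; have := tv_pos k; linarith
  · obtain ⟨h1, h2⟩ := X_true_re h
    obtain ⟨h3, h4⟩ := X_true_re h'
    rcases lt_trichotomy k k' with hk | hk | hk
    · have := tv_mono' (show k + 1 ≤ k' by omega); linarith
    · rw [hk]
    · have := tv_mono' (show k' + 1 ≤ k by omega); linarith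

theorem Wp_not_X {p : ℤ × Bool} {z : ℍ} (h : z ∈ Wp) : z ∉ X p := by
  obtain ⟨k, e⟩ := p
  cases e
  · exact fun h' => absurd (h.2 k) (not_lt.2 h')
  · exact fun h' => absurd (h.1 k) (not_le.2 h')

theorem Wp_iff {z : ℍ} : z ∈ Wp ↔ ∀ p, z ∉ X p :=
  ⟨fun h _ => Wp_not_X h, fun h => ⟨fun k => not_lt.1 (h (k, true)), fun k => not_le.1 (h (k, false))⟩⟩

theorem X_A (m : ℤ) {k : ℤ} {e : Bool} {z : ℍ} : Am ^ m • z ∈ X (k + m, e) ↔ z ∈ X (k, e) := by
  have hp : 0 < (mu ^ m) ^ 2 := by have := zpow_pos mu_pos m; positivity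
  cases e
  · change qb (k + m) (Am ^ m • z) ≤ 0 ↔ qb k z ≤ 0
    rw [qb_A]
    constructor
    · intro h; by_contra h'; push Not at h'; nlinarith [mul_pos hp h']
    · intro h; nlinarith
  · change qt (k + m) (Am ^ m • z) < 0 ↔ qt k z < 0
    rw [qt_A]
    constructor
    · intro h; by_contra h'; push Not at h'; nlinarith [mul_nonneg hp.le h']
    · intro h; nlinarith

/-- `B` or its inverse -/
def Bpow : Bool → SL(2, ℝ)
  | true => Bm
  | false => Bm⁻¹

theorem B_true {z : ℍ} : Bm • z ∈ X (0, true) ↔ z ∉ X (0, false) := by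
  have h := qt_B z
  have hD := den_pos Bm z
  change qt 0 (Bm • z) < 0 ↔ ¬ (qb 0 z ≤ 0)
  have := ph1
  constructor
  · intro h1
    push Not
    by_contra h2
    push Not at h2
    have : qt 0 (Bm • z) * ((Bm 1 0 * z.re + Bm 1 1) ^ 2 + (Bm 1 0 * z.im) ^ 2) < 0 :=
      mul_neg_of_neg_of_pos h1 hD
    nlinarith
  · intro h1
    push Not at h1
    by_contra h2
    push Not at h2
    have : 0 ≤ qt 0 (Bm • z) * ((Bm 1 0 * z.re + Bm 1 1) ^ 2 + (Bm 1 0 * z.im) ^ 2) :=
      mul_nonneg h2 hD.le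
    nlinarith

theorem B_false {z : ℍ} : Bm⁻¹ • z ∈ X (0, false) ↔ z ∉ X (0, true) := by
  have := B_true (z := Bm⁻¹ • z)
  rw [smul_inv_smul] at this
  rw [this, not_not]

theorem Bpow_X {e : Bool} {z : ℍ} (h : z ∉ X (0, !e)) : Bpow e • z ∈ X (0, e) := by
  cases e
  · exact B_false.2 h
  · exact B_true.2 h

/-- word for `B^{±1}` -/
def gBp : Bool → FreeGroup Bool
  | true => gB
  | false => gB⁻¹

theorem rep_gBp (e : Bool) : rep (gBp e) = Bpow e := by
  cases e
  · simp [gBp, Bpow, rep_B]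
  · simp [gBp, Bpow, rep_B]

/-- Normal forms. `NF w n o`: `w` is written with `n` letters `B^{±}`, the first one being `o`. -/
inductive NF : FreeGroup Bool → ℕ → Option (ℤ × Bool) → Prop
  | pow (k : ℤ) : NF (gA ^ k) 0 none
  | cons (k : ℤ) (e : Bool) (w : FreeGroup Bool) (n : ℕ) (o : Option (ℤ × Bool)) :
      NF w n o → o ≠ some (0, !e) → NF (gA ^ k * gBp e * w) (n + 1) (some (k, e))

theorem NF_A {w : FreeGroup Bool} {n : ℕ} {o : Option (ℤ × Bool)} (h : NF w n o) (m : ℤ) :
    NF (gA ^ m * w) n (o.map fun p => (m + p.1, p.2)) := by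
  cases h with
  | pow k => rw [← zpow_add]; exact NF.pow _
  | cons k e w n o h ho =>
    rw [← mul_assoc, ← mul_assoc, ← zpow_add]
    exact NF.cons _ _ _ _ _ h ho

theorem NF_B {w : FreeGroup Bool} {n : ℕ} {o : Option (ℤ × Bool)} (h : NF w n o) (e : Bool) :
    ∃ n' o', NF (gBp e * w) n' o' := by
  by_cases ho : o = some (0, !e)
  · subst ho
    cases h with
    | cons k e' w n o h ho =>
      have : gBp e * (gA ^ (0 : ℤ) * gBp (!e) * w) = w := by
        cases e <;> simp [gBp]
      rw [this]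
      exact ⟨_, _, h⟩
  · refine ⟨n + 1, some (0, e), ?_⟩
    have := NF.cons 0 e w n o h ho
    simpa using this

theorem NF_exists (w : FreeGroup Bool) : ∃ n o, NF w n o := by
  suffices ∀ v : FreeGroup Bool, (∃ n o, NF v n o) → ∃ n o, NF (w * v) n o by
    have := this 1 ⟨0, none, by simpa using NF.pow 0⟩
    simpa using this
  induction w using FreeGroup.induction_on with
  | C1 => intro v hv; simpa using hv
  | of b =>
    rintro v ⟨n, o, hv⟩
    cases b
    · obtain ⟨n', o', h⟩ := NF_B hv true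
      exact ⟨n', o', h⟩
    · have := NF_A hv 1
      rw [zpow_one] at this
      exact ⟨n, _, this⟩
  | inv_of b _ =>
    rintro v ⟨n, o, hv⟩
    cases b
    · obtain ⟨n', o', h⟩ := NF_B hv false
      exact ⟨n', o', h⟩
    · have := NF_A hv (-1)
      rw [zpow_neg, zpow_one] at this
      exact ⟨n, _, this⟩
  | mul x y hx hy =>
    intro v hv
    rw [mul_assoc]
    exact hx _ (hy _ hv)

theorem rep_gA_zpow (k : ℤ) : rep (gA ^ k) = Am ^ k := by rw [map_zpow, rep_A]

/-- the main ping-pong statement -/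
theorem NF_X {w : FreeGroup Bool} {n : ℕ} {o : Option (ℤ × Bool)} (h : NF w n o) :
    ∀ z ∈ Wp, match o with
      | none => rep w • z ∈ Wp
      | some p => rep w • z ∈ X p := by
  induction h with
  | pow k => intro z hz; simp only; rw [rep_gA_zpow]; exact Wp_A k hz
  | cons k e w n o h ho ih =>
    intro z hz
    have h1 := ih z hz
    simp only
    rw [map_mul, map_mul, rep_gA_zpow, rep_gBp, mul_smul, mul_smul]
    have h2 : rep w • z ∉ X (0, !e) := by
      cases o with
      | none => exact Wp_not_X h1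
      | some p =>
        intro h3
        exact ho (congrArg some (X_disj h1 h3))
    have h3 := Bpow_X h2
    have := (X_A k (k := 0) (e := e)).2 h3
    rwa [zero_add] at this

theorem NF_X_some {w : FreeGroup Bool} {n : ℕ} {p : ℤ × Bool} (h : NF w n (some p)) {z : ℍ} (hz : z ∈ Wp) :
    rep w • z ∈ X p := NF_X h z hz

/-- an element of the free group moving a point of the strip to a point of the strip is a power of `A`. -/
theorem strip_stab {w : FreeGroup Bool} {z : ℍ} (hz : z ∈ Wp) (hw : rep w • z ∈ Wp) :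
    ∃ k : ℤ, w = gA ^ k := by
  obtain ⟨n, o, h⟩ := NF_exists w
  cases h with
  | pow k => exact ⟨k, rfl⟩
  | cons k e w n o h ho =>
    exact absurd (NF_X_some (NF.cons k e w n o h ho) hz) (Wp_not_X hw)

/-- A point of the strip. -/
theorem Wp_nonempty : ∃ z : ℍ, z ∈ Wp ∧ z.re = 0 := by
  refine ⟨UpperHalfPlane.I, ⟨fun k => ?_, fun k => ?_⟩, by simp [UpperHalfPlane.I, UpperHalfPlane.re]⟩
  · have h : (UpperHalfPlane.I).re = 0 := by simp [UpperHalfPlane.I, UpperHalfPlane.re]
    unfold qt q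
    rw [h]
    nlinarith [mul_pos (tv_pos k) (tv_pos (k + 1)), sq_nonneg (UpperHalfPlane.I).im]
  · have h : (UpperHalfPlane.I).re = 0 := by simp [UpperHalfPlane.I, UpperHalfPlane.re]
    unfold qb q
    rw [h]
    nlinarith [mul_pos_of_neg_of_neg (bv_neg k) (bv_neg (k + 1)), sq_nonneg (UpperHalfPlane.I).im]

/-- `Am ^ m` fixes a point of `ℍ` only for `m = 0`. -/
theorem Am_free {m : ℤ} {z : ℍ} (h : Am ^ m • z = z) : m = 0 := by
  have h2 := (Am_zpow m z).2
  rw [h] at h2
  have hz := z.im_pos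
  have h3 : mu ^ m = 1 := by
    have : (mu ^ m - 1) * z.im = 0 := by linarith
    rcases mul_eq_zero.1 this with h | h
    · linarith
    · exact absurd h hz.ne'
  by_contra hm
  rcases lt_or_gt_of_ne hm with hm | hm
  · have := zpow_lt_zpow_right₀ mu_one hm
    simp at this; linarith
  · have := zpow_lt_zpow_right₀ mu_one hm
    simp at this; linarith

end

end Pool.Agent.Run7.h775.OneSys
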