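import Pool.Agent.Run7.h775.OneSys.AxisTop

set_option linter.unusedSimpArgs false

open UpperHalfPlane MatrixGroups Pointwise

namespace Pool.Agent.Run7.h775.OneSys

noncomputable section

/-- The transition element through the `k`-th top edge, entering through the `k'`-th bottom edge. -/
def T (k k' : ℤ) : FreeGroup Bool := gA ^ k * gB * gA ^ (-k')

theorem rep_T (k k' : ℤ) : rep (T k k') = Am ^ k * Bm * Am ^ (-k') := by
  unfold T; rw [map_mul, map_mul, rep_gA_zpow, rep_gA_zpow, rep_B]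

/-- top geodesic of the curve through the top edges `a, b` and bottom edges `a', b'` -/
theorem top_axis {a b a' b' : ℤ} (h : a + 2 ≤ b) (h' : a' + 2 ≤ b') :
    TopS a b (axis (rep (T b b' * (T a a')⁻¹))) ∧ IsHyp (rep (T b b' * (T a a')⁻¹)) := by
  have e : rep (T b b' * (T a a')⁻¹) =
      Am ^ a * (Am ^ (b - a) * Bm * Am ^ (-(b' - a')) * Bm⁻¹) * (Am ^ a)⁻¹ := by
    rw [map_mul, map_inv, rep_T, rep_T]
    group
  obtain ⟨h1, h2⟩ := top_axis0 (m := b - a) (n := b' - a') (by omega) (by omega)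
  rw [e]
  constructor
  · rw [← smul_axis]
    have := TopS_A a h1
    rwa [zero_add, sub_add_cancel] at this
  · exact isHyp_conj.2 h2

/-- the inversion `z ↦ -1/z` -/
def Jm : SL(2, ℝ) := ⟨!![0, -1; 1, 0], by rw [Matrix.det_fin_two]; simp⟩

theorem J_A : Jm * Am * Jm⁻¹ = Am⁻¹ := by
  have h00 : Am 0 0 = ph + 1 := rfl
  have h01 : Am 0 1 = 0 := rfl
  have h10 : Am 1 0 = 0 := rfl
  have h11 : Am 1 1 = 2 - ph := rfl
  have j00 : Jm 0 0 = 0 := rfl
  have j01 : Jm 0 1 = -1 := rfl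
  have j10 : Jm 1 0 = 1 := rfl
  have j11 : Jm 1 1 = 0 := rfl
  apply Matrix.SpecialLinearGroup.ext
  intro i j
  fin_cases i <;> fin_cases j <;>
    simp only [Fin.zero_eta, Fin.mk_one, mul00, mul01, mul10, mul11, inv00, inv01, inv10, inv11,
      h00, h01, h10, h11, j00, j01, j10, j11] <;> ring

theorem J_B : Jm * Bm * Jm⁻¹ = Bm⁻¹ := by
  have h00 : Bm 0 0 = (3 * ph + 6) / 5 := rfl
  have h01 : Bm 0 1 = (4 * ph - 2) / 5 := rfl
  have h10 : Bm 1 0 = (4 * ph - 2) / 5 := rfl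
  have h11 : Bm 1 1 = (9 - 3 * ph) / 5 := rfl
  have j00 : Jm 0 0 = 0 := rfl
  have j01 : Jm 0 1 = -1 := rfl
  have j10 : Jm 1 0 = 1 := rfl
  have j11 : Jm 1 1 = 0 := rfl
  apply Matrix.SpecialLinearGroup.ext
  intro i j
  fin_cases i <;> fin_cases j <;>
    simp only [Fin.zero_eta, Fin.mk_one, mul00, mul01, mul10, mul11, inv00, inv01, inv10, inv11,
      h00, h01, h10, h11, j00, j01, j10, j11] <;> ring

theorem smul_J_geo {x y : ℝ} (hx : x ≠ 0) (hy : y ≠ 0) : Jm⁻¹ • geo x y = geo (-x⁻¹) (-y⁻¹) := by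
  ext z
  rw [Set.mem_smul_set_iff_inv_smul_mem, inv_inv]
  have h1 := re_smul_eq Jm z
  have h2 := im_smul_eq Jm z
  have j00 : Jm 0 0 = 0 := rfl
  have j01 : Jm 0 1 = -1 := rfl
  have j10 : Jm 1 0 = 1 := rfl
  have j11 : Jm 1 1 = 0 := rfl
  have hr : 0 < z.re ^ 2 + z.im ^ 2 := by have := z.im_pos; positivity
  rw [j00, j01, j10, j11] at h1
  rw [j10, j11] at h2
  set r := z.re ^ 2 + z.im ^ 2 with hrdef
  have h1' : (Jm • z).re * r = -z.re := by rw [hrdef]; linarith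
  have h2' : (Jm • z).im * r = z.im := by rw [hrdef]; linarith
  change ((Jm • z).re - x) * ((Jm • z).re - y) + (Jm • z).im ^ 2 = 0 ↔
    (z.re - -x⁻¹) * (z.re - -y⁻¹) + z.im ^ 2 = 0
  have key : (((Jm • z).re - x) * ((Jm • z).re - y) + (Jm • z).im ^ 2) * r ^ 2 =
      r * (x * y) * ((z.re - -x⁻¹) * (z.re - -y⁻¹) + z.im ^ 2) := by
    have e1 : (((Jm • z).re - x) * ((Jm • z).re - y) + (Jm • z).im ^ 2) * r ^ 2 =
        ((Jm • z).re * r - x * r) * ((Jm • z).re * r - y * r) + ((Jm • z).im * r) ^ 2 := by ring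
    rw [e1, h1', h2']
    have e2 : r * (x * y) * ((z.re - -x⁻¹) * (z.re - -y⁻¹) + z.im ^ 2) =
        r * (x * y * (z.re ^ 2 + z.im ^ 2) + (x * y * x⁻¹ + x * y * y⁻¹) * z.re + (x * x⁻¹) * (y * y⁻¹)) := by
      ring
    have e3 : x * y * x⁻¹ = y := by field_simp
    have e4 : x * y * y⁻¹ = x := by field_simp
    rw [e2, e3, e4, mul_inv_cancel₀ hx, mul_inv_cancel₀ hy, ← hrdef]
    rw [hrdef]; ring
  have hne : r * (x * y) ≠ 0 := mul_ne_zero hr.ne' (mul_ne_zero hx hy)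
  constructor
  · intro h
    rw [h, zero_mul] at key
    rcases mul_eq_zero.1 key.symm with h | h
    · exact absurd h hne
    · exact h
  · intro h
    rw [h, mul_zero] at key
    rcases mul_eq_zero.1 key with h | h
    · exact h
    · exact absurd h (by positivity)

theorem inv_tv (k : ℤ) : -(tv k)⁻¹ = bv (1 - k) := by
  unfold tv bv
  have hmu := mu_pos.ne'
  rw [zpow_sub₀ hmu, zpow_one, mul_inv, ← div_eq_mul_inv]
  have h1 : (ph - 1)⁻¹ = ph := inv_eq_of_mul_eq_one_right (by linear_combination phsq)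
  rw [h1]
  have h2 : (3 - 2 * ph) * mu = -ph := by unfold mu; linear_combination (-6) * phsq
  field_simp
  linear_combination -h2

theorem TopS_J {p r : ℤ} {L : Set ℍ} (h : TopS p r L) : BotS (-r) (-p) (Jm⁻¹ • L) := by
  obtain ⟨x, y, h1, h2, h3, h4, rfl⟩ := h
  have tp := tv_pos p
  have tr := tv_pos r
  have hx : 0 < x := by linarith
  have hy : 0 < y := by linarith
  refine ⟨-y⁻¹, -x⁻¹, ?_, ?_, ?_, ?_, ?_⟩
  · rw [show -r + 1 = 1 - r by ring, ← inv_tv]
    have := inv_strictAnti₀ tr h3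
    linarith
  · rw [show -r = 1 - (r + 1) by ring, ← inv_tv]
    have := inv_strictAnti₀ hy h4
    linarith
  · rw [show -p + 1 = 1 - p by ring, ← inv_tv]
    have := inv_strictAnti₀ tp h1
    linarith
  · rw [show -p = 1 - (p + 1) by ring, ← inv_tv]
    have := inv_strictAnti₀ hx h2
    linarith
  · rw [smul_J_geo hx.ne' hy.ne', geo_comm]

/-- bottom geodesic of the same curve -/
theorem bot_axis {a b a' b' : ℤ} (h : a + 2 ≤ b) (h' : a' + 2 ≤ b') :
    BotS a' b' (axis (rep ((T a a')⁻¹ * T b b'))) := by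
  obtain ⟨h1, h2⟩ := top_axis0 (m := b' - a') (n := b - a) (by omega) (by omega)
  have h3 := TopS_J (TopS_A (-b') h1)
  have cA : MulAut.conj Jm Am = Am⁻¹ := by rw [MulAut.conj_apply]; exact J_A
  have cB : MulAut.conj Jm Bm = Bm⁻¹ := by rw [MulAut.conj_apply]; exact J_B
  have e : MulAut.conj Jm (rep ((T a a')⁻¹ * T b b')) =
      Am ^ (-b') * (Am ^ (b' - a') * Bm * Am ^ (-(b - a)) * Bm⁻¹) * (Am ^ (-b'))⁻¹ := by
    rw [map_mul, map_inv, rep_T, rep_T]
    simp only [map_mul, map_inv, map_zpow, cA, cB]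
    group
  rw [MulAut.conj_apply] at e
  rw [smul_axis, ← e, smul_axis] at h3
  have e2 : Jm⁻¹ * (Jm * rep ((T a a')⁻¹ * T b b') * Jm⁻¹) * Jm⁻¹⁻¹ = rep ((T a a')⁻¹ * T b b') := by
    group
  rw [e2] at h3
  convert h3 using 1 <;> ring

theorem mid_axis (k k' : ℤ) : MidS k' k (axis (rep (T k k'))) ∧ IsHyp (rep (T k k')) := by
  obtain ⟨h1, h2⟩ := mid_axis0 (k - k')
  have e : rep (T k k') = Am ^ k' * (Am ^ (k - k') * Bm) * (Am ^ k')⁻¹ := by
    rw [rep_T]; group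
  rw [e]
  constructor
  · rw [← smul_axis]
    have := MidS_A k' h1
    rwa [zero_add, sub_add_cancel] at this
  · exact isHyp_conj.2 h2

end

end Pool.Agent.Run7.h775.OneSys
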