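import Pool.Agent.Run7.h775.OneSys.PingPong
import Pool.Agent.Run7.h775.OneSys.Data

set_option linter.unusedSimpArgs false

open UpperHalfPlane MatrixGroups Pointwise

namespace Pool.Agent.Run7.h775.OneSys

noncomputable section

/-- `L` is a geodesic from the `p`-th to the `r`-th top slot. -/
def TopS (p r : ℤ) (L : Set ℍ) : Prop :=
  ∃ x y, tv p < x ∧ x < tv (p + 1) ∧ tv r < y ∧ y < tv (r + 1) ∧ L = geo x y

/-- `L` is a geodesic from the `p`-th to the `r`-th bottom slot. -/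
def BotS (p r : ℤ) (L : Set ℍ) : Prop :=
  ∃ x y, bv (p + 1) < x ∧ x < bv p ∧ bv (r + 1) < y ∧ y < bv r ∧ L = geo x y

/-- `L` is a geodesic from the `p`-th bottom slot to the `r`-th top slot. -/
def MidS (p r : ℤ) (L : Set ℍ) : Prop :=
  ∃ x y, bv (p + 1) < x ∧ x < bv p ∧ tv r < y ∧ y < tv (r + 1) ∧ L = geo x y

/-- `q x y` in terms of its coefficients -/
theorem geo_re {x y : ℝ} {z : ℍ} (hz : z ∈ geo x y) :
    z.re ^ 2 + z.im ^ 2 = (x + y) * z.re - x * y := by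
  have : (z.re - x) * (z.re - y) + z.im ^ 2 = 0 := hz
  linarith

theorem geo_between {x y : ℝ} {z : ℍ} (hxy : x < y) (hz : z ∈ geo x y) : x < z.re ∧ z.re < y :=
  q_between hxy (le_of_eq hz)

/-- Two different geodesics meet at most once. -/
theorem geo_unique {x y u v : ℝ} {z w : ℍ} (hs : x + y ≠ u + v)
    (h1 : z ∈ geo x y) (h2 : z ∈ geo u v) (h3 : w ∈ geo x y) (h4 : w ∈ geo u v) : z = w := by
  have e1 := geo_re h1
  have e2 := geo_re h2
  have e3 := geo_re h3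
  have e4 := geo_re h4
  have hre : z.re = w.re := by
    have : ((x + y) - (u + v)) * (z.re - w.re) = 0 := by linarith
    rcases mul_eq_zero.1 this with h | h
    · exact absurd (by linarith) hs
    · linarith
  have him : z.im = w.im := by
    have : z.im ^ 2 = w.im ^ 2 := by rw [hre] at e1; linarith
    have hz := z.im_pos
    have hw := w.im_pos
    nlinarith
  exact UpperHalfPlane.ext_re_im hre him

/-- Interleaved endpoints give a crossing. -/
theorem geo_cross {x y u v : ℝ} (h1 : x < u) (h2 : u < y) (h3 : y < v) :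
    ∃ z, z ∈ geo x y ∧ z ∈ geo u v := by
  -- re = (uv - xy)/((u+v)-(x+y))
  set s := (u + v) - (x + y) with hs
  have hspos : 0 < s := by rw [hs]; linarith
  set t := (u * v - x * y) / s with ht
  have hts : t * s = u * v - x * y := by rw [ht]; field_simp
  have hlt1 : u < t := by
    by_contra h
    push Not at h
    have : t * s ≤ u * s := mul_le_mul_of_nonneg_right h hspos.le
    nlinarith [mul_pos (sub_pos.2 h1) (sub_pos.2 h2)]
  have hlt2 : t < y := by
    by_contra h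
    push Not at h
    have : y * s ≤ t * s := mul_le_mul_of_nonneg_right h hspos.le
    nlinarith [mul_pos (sub_pos.2 h3) (sub_pos.2 h2)]
  have hpos : 0 < (t - x) * (y - t) := mul_pos (by linarith) (by linarith)
  refine ⟨⟨⟨t, Real.sqrt ((t - x) * (y - t))⟩, Real.sqrt_pos.2 hpos⟩, ?_, ?_⟩
  · change (t - x) * (t - y) + Real.sqrt ((t - x) * (y - t)) ^ 2 = 0
    rw [Real.sq_sqrt hpos.le]; ring
  · change (t - u) * (t - v) + Real.sqrt ((t - x) * (y - t)) ^ 2 = 0
    rw [Real.sq_sqrt hpos.le]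
    have : (t - u) * (t - v) + (t - x) * (y - t) = -(t * s) + (u * v - x * y) := by rw [hs]; ring
    rw [this, hts]; ring

/-- Two geodesics that meet have interleaved endpoints or the same endpoints. -/
theorem geo_meet {x y u v : ℝ} {z : ℍ} (hxy : x < y) (huv : u < v) (h1 : z ∈ geo x y) (h2 : z ∈ geo u v)
    (hxu : x < u) : u < y ∧ y < v := by
  obtain ⟨a1, a2⟩ := geo_between hxy h1
  obtain ⟨b1, b2⟩ := geo_between huv h2
  refine ⟨by linarith, ?_⟩
  by_contra h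
  push Not at h
  have e1 : (z.re - x) * (z.re - y) + z.im ^ 2 = 0 := h1
  have e2 : (z.re - u) * (z.re - v) + z.im ^ 2 = 0 := h2
  nlinarith [mul_pos (sub_pos.2 hxu) (sub_pos.2 a2), mul_nonneg (sub_nonneg.2 h) (sub_pos.2 b1).le]

theorem mem_smul_geo {m : ℤ} {x y : ℝ} :
    Am ^ m • geo x y = geo (mu ^ m * x) (mu ^ m * y) := by
  ext z
  rw [Set.mem_smul_set_iff_inv_smul_mem]
  have hmu := mu_pos.ne'
  rw [← zpow_neg]
  obtain ⟨h1, h2⟩ := Am_zpow (-m) z
  change (_ - x) * (_ - y) + _ ^ 2 = 0 ↔ (_ - _) * (_ - _) + _ ^ 2 = 0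
  rw [h1, h2, zpow_neg]
  have hm : mu ^ m ≠ 0 := zpow_ne_zero m hmu
  have : (z.re - mu ^ m * x) * (z.re - mu ^ m * y) + z.im ^ 2 =
      (mu ^ m) ^ 2 * (((mu ^ m)⁻¹ * z.re - x) * ((mu ^ m)⁻¹ * z.re - y) + ((mu ^ m)⁻¹ * z.im) ^ 2) := by
    field_simp
  rw [this]
  constructor
  · intro h; rw [h, mul_zero]
  · intro h
    rcases mul_eq_zero.1 h with h | h
    · exact absurd h (by positivity)
    · exact h

theorem tv_shift (m k : ℤ) : mu ^ m * tv k = tv (k + m) := by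
  unfold tv; rw [zpow_add₀ mu_pos.ne']; ring
theorem bv_shift (m k : ℤ) : mu ^ m * bv k = bv (k + m) := by
  unfold bv; rw [zpow_add₀ mu_pos.ne']; ring

theorem TopS_A {p r : ℤ} {L : Set ℍ} (m : ℤ) (h : TopS p r L) : TopS (p + m) (r + m) (Am ^ m • L) := by
  obtain ⟨x, y, h1, h2, h3, h4, rfl⟩ := h
  have hp := zpow_pos mu_pos m
  refine ⟨mu ^ m * x, mu ^ m * y, ?_, ?_, ?_, ?_, mem_smul_geo⟩
  · rw [← tv_shift]; exact mul_lt_mul_of_pos_left h1 hp
  · rw [show p + m + 1 = (p + 1) + m by ring, ← tv_shift]; exact mul_lt_mul_of_pos_left h2 hp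
  · rw [← tv_shift]; exact mul_lt_mul_of_pos_left h3 hp
  · rw [show r + m + 1 = (r + 1) + m by ring, ← tv_shift]; exact mul_lt_mul_of_pos_left h4 hp

theorem BotS_A {p r : ℤ} {L : Set ℍ} (m : ℤ) (h : BotS p r L) : BotS (p + m) (r + m) (Am ^ m • L) := by
  obtain ⟨x, y, h1, h2, h3, h4, rfl⟩ := h
  have hp := zpow_pos mu_pos m
  refine ⟨mu ^ m * x, mu ^ m * y, ?_, ?_, ?_, ?_, mem_smul_geo⟩
  · rw [show p + m + 1 = (p + 1) + m by ring, ← bv_shift]; exact mul_lt_mul_of_pos_left h1 hp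
  · rw [← bv_shift]; exact mul_lt_mul_of_pos_left h2 hp
  · rw [show r + m + 1 = (r + 1) + m by ring, ← bv_shift]; exact mul_lt_mul_of_pos_left h3 hp
  · rw [← bv_shift]; exact mul_lt_mul_of_pos_left h4 hp

theorem MidS_A {p r : ℤ} {L : Set ℍ} (m : ℤ) (h : MidS p r L) : MidS (p + m) (r + m) (Am ^ m • L) := by
  obtain ⟨x, y, h1, h2, h3, h4, rfl⟩ := h
  have hp := zpow_pos mu_pos m
  refine ⟨mu ^ m * x, mu ^ m * y, ?_, ?_, ?_, ?_, mem_smul_geo⟩
  · rw [show p + m + 1 = (p + 1) + m by ring, ← bv_shift]; exact mul_lt_mul_of_pos_left h1 hp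
  · rw [← bv_shift]; exact mul_lt_mul_of_pos_left h2 hp
  · rw [← tv_shift]; exact mul_lt_mul_of_pos_left h3 hp
  · rw [show r + m + 1 = (r + 1) + m by ring, ← tv_shift]; exact mul_lt_mul_of_pos_left h4 hp

theorem TopS_re {p r : ℤ} {L : Set ℍ} (hpr : p < r) (h : TopS p r L) {z : ℍ} (hz : z ∈ L) : 0 < z.re := by
  obtain ⟨x, y, h1, h2, h3, h4, rfl⟩ := h
  have h5 := tv_mono' (show p + 1 ≤ r by omega)
  have := (geo_between (by linarith) hz).1
  have := tv_pos p
  linarith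

theorem BotS_re {p r : ℤ} {L : Set ℍ} (hpr : p < r) (h : BotS p r L) {z : ℍ} (hz : z ∈ L) : z.re < 0 := by
  obtain ⟨x, y, h1, h2, h3, h4, rfl⟩ := h
  have h5 := bv_anti' (show p + 1 ≤ r by omega)
  rw [geo_comm] at hz
  have := (geo_between (by linarith) hz).2
  have := bv_neg p
  linarith

theorem TopS_X {p r : ℤ} {L : Set ℍ} (hpr : p < r) (h : TopS p r L) {z : ℍ} (hz : z ∈ L) {k : ℤ} {e : Bool}
    (hX : z ∈ X (k, e)) : e = true ∧ (k = p ∨ k = r) := by
  have hpos := TopS_re hpr h hz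
  obtain ⟨x, y, h1, h2, h3, h4, rfl⟩ := h
  have h5 := tv_mono' (show p + 1 ≤ r by omega)
  obtain ⟨g1, g2⟩ := geo_between (by linarith : x < y) hz
  cases e
  · obtain ⟨_, h6⟩ := X_false_re hX
    have := bv_neg k
    linarith
  · refine ⟨rfl, ?_⟩
    obtain ⟨h6, h7⟩ := X_true_re hX
    rcases lt_trichotomy k p with hk | hk | hk
    · have := tv_mono' (show k + 1 ≤ p by omega); linarith
    · exact Or.inl hk
    · rcases lt_trichotomy k r with hk' | hk' | hk'
      · exfalso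
        have a1 := tv_mono' (show p + 1 ≤ k by omega)
        have a2 := tv_mono' (show k + 1 ≤ r by omega)
        have := q_nested (x := x) (y := y) (by linarith) (tv_mono (show k < k + 1 by omega)) (by linarith) hX
        have e : q x y z = 0 := hz
        linarith
      · exact Or.inr hk'
      · have := tv_mono' (show r + 1 ≤ k by omega); linarith

theorem BotS_X {p r : ℤ} {L : Set ℍ} (hpr : p < r) (h : BotS p r L) {z : ℍ} (hz : z ∈ L) {k : ℤ} {e : Bool}
    (hX : z ∈ X (k, e)) : e = false ∧ (k = p ∨ k = r) := by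
  have hpos := BotS_re hpr h hz
  obtain ⟨x, y, h1, h2, h3, h4, rfl⟩ := h
  have h5 := bv_anti' (show p + 1 ≤ r by omega)
  rw [geo_comm] at hz
  obtain ⟨g1, g2⟩ := geo_between (by linarith : y < x) hz
  cases e
  · refine ⟨rfl, ?_⟩
    obtain ⟨h6, h7⟩ := X_false_re hX
    rcases lt_trichotomy k p with hk | hk | hk
    · have := bv_anti' (show k + 1 ≤ p by omega); linarith
    · exact Or.inl hk
    · rcases lt_trichotomy k r with hk' | hk' | hk'
      · exfalso
        have a1 := bv_anti' (show p + 1 ≤ k by omega)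
        have a2 := bv_anti' (show k + 1 ≤ r by omega)
        have := q_nested' (x := y) (y := x) (by linarith) (bv_anti (show k < k + 1 by omega)) (by linarith) hX
        have e : q y x z = 0 := hz
        linarith
      · exact Or.inr hk'
      · have := bv_anti' (show r + 1 ≤ k by omega); linarith
  · obtain ⟨h6, _⟩ := X_true_re hX
    have := tv_pos k
    linarith

theorem MidS_X {p r : ℤ} {L : Set ℍ} (h : MidS p r L) {z : ℍ} (hz : z ∈ L) {k : ℤ} {e : Bool}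
    (hX : z ∈ X (k, e)) : (e = false ∧ k = p) ∨ (e = true ∧ k = r) := by
  obtain ⟨x, y, h1, h2, h3, h4, rfl⟩ := h
  have hx := bv_neg p
  have hy := tv_pos r
  obtain ⟨g1, g2⟩ := geo_between (by linarith : x < y) hz
  have e0 : q x y z = 0 := hz
  cases e
  · refine Or.inl ⟨rfl, ?_⟩
    obtain ⟨h6, h7⟩ := X_false_re hX
    rcases lt_trichotomy k p with hk | hk | hk
    · exfalso
      have a1 := bv_anti' (show k + 1 ≤ p by omega)
      have := bv_neg k
      have := q_nested' (x := x) (y := y) (by linarith) (bv_anti (show k < k + 1 by omega)) (by linarith) hX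
      linarith
    · exact hk
    · have := bv_anti' (show p + 1 ≤ k by omega); linarith
  · refine Or.inr ⟨rfl, ?_⟩
    obtain ⟨h6, h7⟩ := X_true_re hX
    rcases lt_trichotomy k r with hk | hk | hk
    · exfalso
      have a1 := tv_mono' (show k + 1 ≤ r by omega)
      have := tv_pos k
      have := q_nested (x := x) (y := y) (by linarith) (tv_mono (show k < k + 1 by omega)) (by linarith) hX
      linarith
    · exact hk
    · have := tv_mono' (show r + 1 ≤ k by omega); linarith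

theorem tv_lt_of {p r : ℤ} {x y : ℝ} (h1 : x < tv (p + 1)) (h2 : tv r < y) (h : p < r) : x < y := by
  have := tv_mono' (show p + 1 ≤ r by omega); linarith
theorem bv_lt_of {p r : ℤ} {x y : ℝ} (h1 : bv (p + 1) < x) (h2 : y < bv r) (h : p < r) : y < x := by
  have := bv_anti' (show p + 1 ≤ r by omega); linarith

theorem TopS_meet {p r p' r' : ℤ} {L L' : Set ℍ} (hpr : p < r) (hpr' : p' < r') (h : TopS p r L)
    (h' : TopS p' r' L') (d1 : p ≠ p') (d2 : p ≠ r') (d3 : r ≠ p') (d4 : r ≠ r')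
    {z : ℍ} (hz : z ∈ L) (hz' : z ∈ L') : inter p r p' r' := by
  obtain ⟨x, y, h1, h2, h3, h4, rfl⟩ := h
  obtain ⟨u, v, k1, k2, k3, k4, rfl⟩ := h'
  have hxy := tv_lt_of h2 h3 hpr
  have huv := tv_lt_of k2 k3 hpr'
  rcases lt_or_gt_of_ne d1 with hd | hd
  · have hxu := tv_lt_of h2 k1 hd
    obtain ⟨a, b⟩ := geo_meet hxy huv hz hz' hxu
    left
    refine ⟨hd, ?_, ?_⟩
    · rcases lt_or_gt_of_ne d3 with h | h
      · have := tv_lt_of h4 k1 h; linarith
      · exact h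
    · rcases lt_or_gt_of_ne d4 with h | h
      · exact h
      · have := tv_lt_of k4 h3 h; linarith
  · have hxu := tv_lt_of k2 h1 hd
    obtain ⟨a, b⟩ := geo_meet huv hxy hz' hz hxu
    right
    refine ⟨hd, ?_, ?_⟩
    · rcases lt_or_gt_of_ne d2 with h | h
      · exact h
      · have := tv_lt_of k4 h1 h; linarith
    · rcases lt_or_gt_of_ne d4 with h | h
      · have := tv_lt_of h4 k3 h; linarith
      · exact h

theorem BotS_meet {p r p' r' : ℤ} {L L' : Set ℍ} (hpr : p < r) (hpr' : p' < r') (h : BotS p r L)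
    (h' : BotS p' r' L') (d1 : p ≠ p') (d2 : p ≠ r') (d3 : r ≠ p') (d4 : r ≠ r')
    {z : ℍ} (hz : z ∈ L) (hz' : z ∈ L') : inter p r p' r' := by
  obtain ⟨x, y, h1, h2, h3, h4, rfl⟩ := h
  obtain ⟨u, v, k1, k2, k3, k4, rfl⟩ := h'
  have hxy := bv_lt_of h1 h4 hpr
  have huv := bv_lt_of k1 k4 hpr'
  rw [geo_comm] at hz hz'
  -- geo y x, geo v u with y < x, v < u
  rcases lt_or_gt_of_ne d4 with hd | hd
  · -- r < r' so v < y
    have hvy := bv_lt_of h3 k4 hd
    obtain ⟨a, b⟩ := geo_meet huv hxy hz' hz hvy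
    -- y < u, u < x
    left
    refine ⟨?_, ?_, hd⟩
    · rcases lt_or_gt_of_ne d1 with h | h
      · exact h
      · have := bv_lt_of k1 h2 h; linarith
    · rcases lt_or_gt_of_ne d3 with h | h
      · have := bv_lt_of h3 k2 h; linarith
      · exact h
  · have hvy := bv_lt_of k3 h4 hd
    obtain ⟨a, b⟩ := geo_meet hxy huv hz hz' hvy
    right
    refine ⟨?_, ?_, hd⟩
    · rcases lt_or_gt_of_ne d1 with h | h
      · have := bv_lt_of h1 k2 h; linarith
      · exact h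
    · rcases lt_or_gt_of_ne d2 with h | h
      · exact h
      · have := bv_lt_of k3 h2 h; linarith

theorem TopS_unique {p r p' r' : ℤ} {L L' : Set ℍ} (h : TopS p r L)
    (h' : TopS p' r' L') (hi : inter p r p' r')
    {z w : ℍ} (hz : z ∈ L) (hz' : z ∈ L') (hw : w ∈ L) (hw' : w ∈ L') : z = w := by
  obtain ⟨x, y, h1, h2, h3, h4, rfl⟩ := h
  obtain ⟨u, v, k1, k2, k3, k4, rfl⟩ := h'
  refine geo_unique ?_ hz hz' hw hw'
  rcases hi with ⟨i1, i2, i3⟩ | ⟨i1, i2, i3⟩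
  · have := tv_lt_of h2 k1 i1
    have := tv_lt_of h4 k3 i3
    exact ne_of_lt (by linarith)
  · have := tv_lt_of k2 h1 i1
    have := tv_lt_of k4 h3 i3
    exact ne_of_gt (by linarith)

theorem BotS_unique {p r p' r' : ℤ} {L L' : Set ℍ} (h : BotS p r L)
    (h' : BotS p' r' L') (hi : inter p r p' r')
    {z w : ℍ} (hz : z ∈ L) (hz' : z ∈ L') (hw : w ∈ L) (hw' : w ∈ L') : z = w := by
  obtain ⟨x, y, h1, h2, h3, h4, rfl⟩ := h
  obtain ⟨u, v, k1, k2, k3, k4, rfl⟩ := h'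
  refine geo_unique ?_ hz hz' hw hw'
  rcases hi with ⟨i1, i2, i3⟩ | ⟨i1, i2, i3⟩
  · have := bv_lt_of h1 k2 i1
    have := bv_lt_of h3 k4 i3
    exact ne_of_gt (by linarith)
  · have := bv_lt_of k1 h2 i1
    have := bv_lt_of k3 h4 i3
    exact ne_of_lt (by linarith)

theorem TopS_cross {p r p' r' : ℤ} {L L' : Set ℍ} (h : TopS p r L)
    (h' : TopS p' r' L') (hi : inter p r p' r') : ∃ z, z ∈ L ∧ z ∈ L' := by
  obtain ⟨x, y, h1, h2, h3, h4, rfl⟩ := h
  obtain ⟨u, v, k1, k2, k3, k4, rfl⟩ := h'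
  rcases hi with ⟨i1, i2, i3⟩ | ⟨i1, i2, i3⟩
  · exact geo_cross (tv_lt_of h2 k1 i1) (tv_lt_of k2 h3 i2) (tv_lt_of h4 k3 i3)
  · obtain ⟨z, a, b⟩ := geo_cross (tv_lt_of k2 h1 i1) (tv_lt_of h2 k3 i2) (tv_lt_of k4 h3 i3)
    exact ⟨z, b, a⟩

theorem BotS_cross {p r p' r' : ℤ} {L L' : Set ℍ} (h : BotS p r L)
    (h' : BotS p' r' L') (hi : inter p r p' r') : ∃ z, z ∈ L ∧ z ∈ L' := by
  obtain ⟨x, y, h1, h2, h3, h4, rfl⟩ := h
  obtain ⟨u, v, k1, k2, k3, k4, rfl⟩ := h'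
  rw [geo_comm x y, geo_comm u v]
  rcases hi with ⟨i1, i2, i3⟩ | ⟨i1, i2, i3⟩
  · obtain ⟨z, a, b⟩ := geo_cross (bv_lt_of h3 k4 i3) (bv_lt_of k1 h4 i2) (bv_lt_of h1 k2 i1)
    exact ⟨z, b, a⟩
  · exact geo_cross (bv_lt_of k3 h4 i3) (bv_lt_of h1 k4 i2) (bv_lt_of k1 h2 i1)

/-- A bottom-top geodesic crosses the top strands spanning its top slot, inside the strip. -/
theorem Mid_Top {p r a b : ℤ} {L L' : Set ℍ} (h : MidS p r L) (h' : TopS a b L') (h1 : a < r) (h2 : r < b) :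
    ∃ z, z ∈ L ∧ z ∈ L' ∧ z ∈ Wp := by
  obtain ⟨x, y, a1, a2, a3, a4, rfl⟩ := id h
  obtain ⟨u, v, b1, b2, b3, b4, rfl⟩ := id h'
  have hx := bv_neg p
  have hu := tv_pos a
  obtain ⟨z, hz, hz'⟩ := geo_cross (show x < u by linarith) (tv_lt_of b2 a3 h1) (tv_lt_of a4 b3 h2)
  refine ⟨z, hz, hz', Wp_iff.2 ?_⟩
  rintro ⟨k, e⟩ hX
  obtain ⟨e1, e2⟩ := TopS_X (by omega) h' hz' hX
  rcases MidS_X h hz hX with ⟨e3, e4⟩ | ⟨e3, e4⟩
  · rw [e1] at e3; exact absurd e3 (by decide)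
  · omega

theorem Mid_Bot {p r a b : ℤ} {L L' : Set ℍ} (h : MidS p r L) (h' : BotS a b L') (h1 : a < p) (h2 : p < b) :
    ∃ z, z ∈ L ∧ z ∈ L' ∧ z ∈ Wp := by
  obtain ⟨x, y, a1, a2, a3, a4, rfl⟩ := id h
  obtain ⟨u, v, b1, b2, b3, b4, rfl⟩ := id h'
  have hy := tv_pos r
  have hu := bv_neg a
  rw [geo_comm u v] at *
  -- v < x < u < y
  obtain ⟨z, hz, hz'⟩ := geo_cross (bv_lt_of a1 b4 h2) (bv_lt_of b1 a2 h1) (show u < y by linarith)
  refine ⟨z, hz', hz, Wp_iff.2 ?_⟩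
  rintro ⟨k, e⟩ hX
  obtain ⟨e1, e2⟩ := BotS_X (by omega) h' hz hX
  rcases MidS_X h hz' hX with ⟨e3, e4⟩ | ⟨e3, e4⟩
  · omega
  · rw [e1] at e3; exact absurd e3 (by decide)

end

end Pool.Agent.Run7.h775.OneSys
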