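import Pool.Agent.Run7.h775.OneSys.Descent

set_option linter.unusedSimpArgs false

open UpperHalfPlane MatrixGroups Pointwise

namespace Pool.Agent.Run7.h775.OneSys

noncomputable section

/-- `g` preserves the lattice of the vectors `(m - nφ, φm + n)`. -/
def Pres (g : SL(2, ℝ)) : Prop := ∀ m n : ℤ, ∃ m' n' : ℤ,
  g 0 0 * (m - n * ph) + g 0 1 * (ph * m + n) = m' - n' * ph ∧
  g 1 0 * (m - n * ph) + g 1 1 * (ph * m + n) = ph * m' + n'

theorem Pres_one : Pres 1 := fun m n => ⟨m, n, by simp, by simp⟩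

theorem Pres_mul {g h : SL(2, ℝ)} (hg : Pres g) (hh : Pres h) : Pres (g * h) := by
  intro m n
  obtain ⟨m1, n1, a, b⟩ := hh m n
  obtain ⟨m2, n2, c, d⟩ := hg m1 n1
  refine ⟨m2, n2, ?_, ?_⟩
  · rw [← c, ← a, ← b, mul00, mul01]; ring
  · rw [← d, ← a, ← b, mul10, mul11]; ring

theorem Pres_A : Pres Am := by
  intro m n
  have h00 : Am 0 0 = ph + 1 := rfl
  have h01 : Am 0 1 = 0 := rfl
  have h10 : Am 1 0 = 0 := rfl
  have h11 : Am 1 1 = 2 - ph := rfl
  refine ⟨m - n, -m + 2 * n, ?_, ?_⟩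
  · rw [h00, h01]; push_cast; linear_combination (-(n : ℝ)) * phsq
  · rw [h10, h11]; push_cast; linear_combination (-(m : ℝ)) * phsq

theorem Pres_A' : Pres Am⁻¹ := by
  intro m n
  have h00 : Am 0 0 = ph + 1 := rfl
  have h01 : Am 0 1 = 0 := rfl
  have h10 : Am 1 0 = 0 := rfl
  have h11 : Am 1 1 = 2 - ph := rfl
  refine ⟨2 * m + n, m + n, ?_, ?_⟩
  · rw [inv00, inv01, h11, h01]; push_cast; linear_combination (n : ℝ) * phsq
  · rw [inv10, inv11, h10, h00]; push_cast; linear_combination (m : ℝ) * phsq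

theorem Pres_B : Pres Bm := by
  intro m n
  have h00 : Bm 0 0 = (3 * ph + 6) / 5 := rfl
  have h01 : Bm 0 1 = (4 * ph - 2) / 5 := rfl
  have h10 : Bm 1 0 = (4 * ph - 2) / 5 := rfl
  have h11 : Bm 1 1 = (9 - 3 * ph) / 5 := rfl
  refine ⟨2 * m - n, -m + n, ?_, ?_⟩
  · rw [h00, h01]; push_cast; linear_combination ((4 * m - 3 * n) / 5 : ℝ) * phsq
  · rw [h10, h11]; push_cast; linear_combination ((-3 * m - 4 * n) / 5 : ℝ) * phsq

theorem Pres_B' : Pres Bm⁻¹ := by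
  intro m n
  have h00 : Bm 0 0 = (3 * ph + 6) / 5 := rfl
  have h01 : Bm 0 1 = (4 * ph - 2) / 5 := rfl
  have h10 : Bm 1 0 = (4 * ph - 2) / 5 := rfl
  have h11 : Bm 1 1 = (9 - 3 * ph) / 5 := rfl
  refine ⟨m + n, m + 2 * n, ?_, ?_⟩
  · rw [inv00, inv01, h11, h01]; push_cast; linear_combination ((-4 * m + 3 * n) / 5 : ℝ) * phsq
  · rw [inv10, inv11, h10, h00]; push_cast; linear_combination ((3 * m + 4 * n) / 5 : ℝ) * phsq

theorem Pres_rep (w : FreeGroup Bool) : Pres (rep w) := by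
  induction w using FreeGroup.induction_on with
  | C1 => rw [map_one]; exact Pres_one
  | of b =>
    cases b
    · exact rep_B ▸ Pres_B
    · exact rep_A ▸ Pres_A
  | inv_of b _ =>
    rw [map_inv]
    cases b
    · exact rep_B ▸ Pres_B'
    · exact rep_A ▸ Pres_A'
  | mul x y hx hy => rw [map_mul]; exact Pres_mul hx hy

/-- eigenvalue of a lattice vector is an integer -/
theorem eig_int {g : SL(2, ℝ)} (hg : Pres g) {n0 : ℤ} {l : ℝ}
    (h1 : g 0 0 * (1 - n0 * ph) + g 0 1 * (ph * 1 + n0) = l * (1 - n0 * ph))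
    (h2 : g 1 0 * (1 - n0 * ph) + g 1 1 * (ph * 1 + n0) = l * (ph * 1 + n0)) : ∃ m : ℤ, l = m := by
  obtain ⟨m', n', a, b⟩ := hg 1 n0
  refine ⟨m', ?_⟩
  push_cast at a b
  rw [h1] at a
  rw [h2] at b
  have h3 : (1 + ph ^ 2) * (l - m') = 0 := by linear_combination a + ph * b
  rcases mul_eq_zero.1 h3 with h | h
  · exfalso; have := sq_nonneg ph; linarith
  · linarith

theorem not_root_aux {g : SL(2, ℝ)} (hg : Pres g) (hg' : Pres g⁻¹) (hh : IsHyp g) {n0 : ℤ} {t : ℝ}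
    (hv : ph * 1 + n0 ≠ 0) (ht : t * (ph * 1 + n0) = 1 - n0 * ph) : P g t ≠ 0 := by
  intro hP
  have hd := det_eq g
  set l := g 1 0 * t + g 1 1 with hl
  have e0 : g 0 0 * t + g 0 1 = t * l := by
    unfold P at hP; rw [hl]; linear_combination -hP
  have h1 : g 0 0 * (1 - n0 * ph) + g 0 1 * (ph * 1 + n0) = l * (1 - n0 * ph) := by
    rw [← ht]; linear_combination (ph * 1 + n0) * e0
  have h2 : g 1 0 * (1 - n0 * ph) + g 1 1 * (ph * 1 + n0) = l * (ph * 1 + n0) := by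
    rw [← ht, hl]; ring
  obtain ⟨m, hm⟩ := eig_int hg h1 h2
  -- eigenvalue of the inverse
  have hll : l * (g 0 0 - g 1 0 * t) = 1 := by
    rw [hl]
    have : (g 1 0 * t + g 1 1) * (g 0 0 - g 1 0 * t) = 1 - g 1 0 * (t * l - (g 0 0 * t + g 0 1)) := by
      rw [hl]; linear_combination hd
    rw [this, e0]; ring
  set l' := g 0 0 - g 1 0 * t with hl'
  have hlne : l ≠ 0 := by intro h; rw [h, zero_mul] at hll; exact zero_ne_one hll
  have h1' : g⁻¹ 0 0 * (1 - n0 * ph) + g⁻¹ 0 1 * (ph * 1 + n0) = l' * (1 - n0 * ph) := by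
    rw [inv00, inv01]
    have : l * (g 1 1 * (1 - n0 * ph) + -g 0 1 * (ph * 1 + n0)) = l * (l' * (1 - n0 * ph)) := by
      rw [← mul_assoc, hll, one_mul]
      linear_combination (-(g 1 1)) * h1 + g 0 1 * h2 + (1 - n0 * ph) * hd
    exact mul_left_cancel₀ hlne this
  have h2' : g⁻¹ 1 0 * (1 - n0 * ph) + g⁻¹ 1 1 * (ph * 1 + n0) = l' * (ph * 1 + n0) := by
    rw [inv10, inv11, ← ht, hl']; ring
  obtain ⟨m', hm'⟩ := eig_int hg' h1' h2'
  rw [hm, hm'] at hll
  have hmm : m * m' = 1 := by exact_mod_cast hll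
  have htr : g 0 0 + g 1 1 = l + l' := by rw [hl, hl']; ring
  unfold IsHyp at hh
  rw [htr, hm, hm'] at hh
  rcases Int.mul_eq_one_iff_eq_one_or_neg_one.1 hmm with ⟨h, h'⟩ | ⟨h, h'⟩
  · rw [h, h'] at hh; norm_num at hh
  · rw [h, h'] at hh; norm_num at hh

theorem P_conj_A (g : SL(2, ℝ)) (k : ℤ) (t : ℝ) : P (Am ^ (-k) * g * (Am ^ (-k))⁻¹) t =
    (mu ^ k)⁻¹ * P g (mu ^ k * t) := by
  obtain ⟨a00, a01, a10, a11⟩ := Am_zpow_entries (-k)
  have hM := (Mpos k).ne'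
  rw [zpow_neg (ph + 1) k] at a00 a11
  rw [inv_inv] at a11
  rw [mu_zpow]
  unfold P
  simp only [mul00, mul01, mul10, mul11, inv00, inv01, inv10, inv11, a00, a01, a10, a11]
  field_simp
  ring

theorem not_root_tv {w : FreeGroup Bool} (hh : IsHyp (rep w)) (k : ℤ) : P (rep w) (tv k) ≠ 0 := by
  intro h
  have e : rep (gA ^ (-k) * w * (gA ^ (-k))⁻¹) = Am ^ (-k) * rep w * (Am ^ (-k))⁻¹ := by
    rw [map_mul, map_mul, map_inv, rep_gA_zpow]
  have h1 : P (rep (gA ^ (-k) * w * (gA ^ (-k))⁻¹)) (tv 0) = 0 := by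
    rw [e, P_conj_A, tv_shift, zero_add, h, mul_zero]
  refine not_root_aux (n0 := 0) (Pres_rep _) ?_ ?_ ?_ ?_ h1
  · rw [← map_inv]; exact Pres_rep _
  · rw [e]; exact isHyp_conj.2 hh
  · have := ph1; push_cast; intro h; linarith
  · rw [tv0]; push_cast; linear_combination phsq

theorem not_root_bv {w : FreeGroup Bool} (hh : IsHyp (rep w)) (k : ℤ) : P (rep w) (bv k) ≠ 0 := by
  intro h
  have e : rep (gA ^ (-k) * w * (gA ^ (-k))⁻¹) = Am ^ (-k) * rep w * (Am ^ (-k))⁻¹ := by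
    rw [map_mul, map_mul, map_inv, rep_gA_zpow]
  have h1 : P (rep (gA ^ (-k) * w * (gA ^ (-k))⁻¹)) (bv 0) = 0 := by
    rw [e, P_conj_A, bv_shift, zero_add, h, mul_zero]
  refine not_root_aux (n0 := 1) (Pres_rep _) ?_ ?_ ?_ ?_ h1
  · rw [← map_inv]; exact Pres_rep _
  · rw [e]; exact isHyp_conj.2 hh
  · have := ph1; push_cast; intro h; linarith
  · rw [bv0]; push_cast; linear_combination (-2) * phsq

/-- The lift of the core curve. -/
def La : Set ℍ := {z | z.re = 0}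

/-- A hyperbolic axis crossing `La` is a bottom-top geodesic. -/
theorem mid_of_cross {w : FreeGroup Bool} (hh : IsHyp (rep w)) {z : ℍ} (hz : z ∈ axis (rep w)) (hz0 : z ∈ La)
    (hne : axis (rep w) ≠ La) : ∃ p r, MidS p r (axis (rep w)) := by
  set g := rep w with hg
  have hd := det_eq g
  have hzr : z.re = 0 := hz0
  have hF : g 1 0 * (z.re ^ 2 + z.im ^ 2) + (g 1 1 - g 0 0) * z.re - g 0 1 = 0 := hz
  rw [hzr] at hF
  have hb : g 0 1 = g 1 0 * z.im ^ 2 := by linarith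
  have him := z.im_pos
  have hc : g 1 0 ≠ 0 := by
    intro hc
    apply hne
    have hb0 : g 0 1 = 0 := by rw [hb, hc, zero_mul]
    have had : g 1 1 - g 0 0 ≠ 0 := by
      intro had
      have e1 : g 1 1 = g 0 0 := by linarith
      rw [hb0, e1, zero_mul, sub_zero] at hd
      unfold IsHyp at hh
      rw [e1] at hh
      have : g 0 0 = 1 ∨ g 0 0 = -1 := mul_self_eq_one_iff.1 hd
      rcases this with h | h
      · rw [h] at hh; norm_num at hh
      · rw [h] at hh; norm_num at hh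
    ext v
    change g 1 0 * (v.re ^ 2 + v.im ^ 2) + (g 1 1 - g 0 0) * v.re - g 0 1 = 0 ↔ v.re = 0
    rw [hc, hb0, zero_mul, zero_add, sub_zero]
    exact ⟨fun h => (mul_eq_zero.1 h).resolve_left had, fun h => by rw [h, mul_zero]⟩
  -- P = c t^2 + e t - c im^2
  set s := (g 1 1 - g 0 0) / g 1 0 with hs
  have hs' : g 1 1 - g 0 0 = g 1 0 * s := by rw [hs]; field_simp
  have hPt : ∀ t, P g t = g 1 0 * (t ^ 2 + s * t - z.im ^ 2) := by
    intro t; unfold P; rw [hs', hb]; ring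
  set Δ := Real.sqrt (s ^ 2 + 4 * z.im ^ 2) with hΔ
  have hΔsq : Δ ^ 2 = s ^ 2 + 4 * z.im ^ 2 := Real.sq_sqrt (by positivity)
  have hΔpos : 0 ≤ Δ := Real.sqrt_nonneg _
  have hΔs : |s| < Δ := by
    apply Real.lt_sqrt_of_sq_lt
    rw [sq_abs]
    have : 0 < z.im ^ 2 := by positivity
    linarith
  obtain ⟨hs1, hs2⟩ := abs_lt.1 hΔs
  set x := (-s - Δ) / 2 with hx
  set y := (-s + Δ) / 2 with hy
  have hx0 : x < 0 := by rw [hx]; linarith
  have hy0 : 0 < y := by rw [hy]; linarith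
  have hPx : P g x = 0 := by
    rw [hPt, hx]
    have : ((-s - Δ) / 2) ^ 2 + s * ((-s - Δ) / 2) - z.im ^ 2 = 0 := by linear_combination (1 / 4) * hΔsq
    rw [this, mul_zero]
  have hPy : P g y = 0 := by
    rw [hPt, hy]
    have : ((-s + Δ) / 2) ^ 2 + s * ((-s + Δ) / 2) - z.im ^ 2 = 0 := by linear_combination (1 / 4) * hΔsq
    rw [this, mul_zero]
  have hP0 : P g 0 ≠ 0 := by
    rw [hPt]
    have : 0 < z.im ^ 2 := by positivity
    have h2 : (0 : ℝ) ^ 2 + s * 0 - z.im ^ 2 = -z.im ^ 2 := by ring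
    rw [h2]
    exact mul_ne_zero hc (neg_ne_zero.2 this.ne')
  obtain ⟨hax, _⟩ := axis_of_roots (by linarith : x ≠ y) hPx hPy hP0
  have hph : 0 < ph - 1 := by linarith [ph1]
  have hph' : 0 < 2 * ph - 3 := by linarith [ph_gt]
  obtain ⟨r, hr1, hr2⟩ := exists_mem_Ico_zpow (x := y / (ph - 1)) (y := mu) (by positivity) mu_one
  obtain ⟨p, hp1, hp2⟩ := exists_mem_Ico_zpow (x := -x / (2 * ph - 3)) (y := mu)
    (div_pos (by linarith) hph') mu_one
  refine ⟨p, r, x, y, ?_, ?_, ?_, ?_, hax⟩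
  · unfold bv
    have := (div_lt_iff₀ hph').1 hp2
    linarith
  · have h1 := (le_div_iff₀ hph').1 hp1
    rcases lt_or_eq_of_le h1 with h | h
    · unfold bv; linarith
    · exfalso
      apply not_root_bv hh p
      have : bv p = x := by unfold bv; linarith
      rw [this]; exact hPx
  · have h1 := (le_div_iff₀ hph).1 hr1
    rcases lt_or_eq_of_le h1 with h | h
    · unfold tv; linarith
    · exfalso
      apply not_root_tv hh r
      have : tv r = y := by unfold tv; linarith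
      rw [this]; exact hPy
  · unfold tv
    have := (div_lt_iff₀ hph).1 hr2
    linarith

end

end Pool.Agent.Run7.h775.OneSys
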